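import Pool.Agent.FS.TodaBC.Num

set_option autoImplicit false

namespace Pool.Agent.FS.TodaBC

open Pool.Agent.Lib.MP_4223bd_al

/-! Transport to Gram matrices with the end vertex of the double bond in the last place. -/

variable {K : Type*} [Field K] {q s p : K} {m : ℕ} {α β r : ℤ}

def Ad (r : ℤ) (i j : Fin (m + 1)) : ℤ :=
  if i.val + 1 = j.val then (if i.val = 0 then r else 1) else 0

def Tm (α β r : ℤ) (i j : Fin (m + 1)) : ℤ :=
  (if i = j then (if i.val = 0 then 2 * α else 2 * β) else 0) - β * Ad r i j - β * Ad r j i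

lemma sum_ad (v : Fin (m + 1) → ℤ) (j : Fin m) :
    ∑ i, v i * Ad r i j.succ = ta r (v 0) (Fin.tail v) j.castSucc := by
  rw [Finset.sum_eq_single j.castSucc]
  · rw [Ad, if_pos (by simp)]
    generalize j.castSucc = k
    refine Fin.cases ?_ (fun k => ?_) k
    · simp [mul_comm]
    · simp [Fin.tail]
  · intro i _ hi
    have : i.val ≠ j.val := fun h => hi (Fin.ext h)
    rw [Ad, if_neg (by simp only [Fin.val_succ]; omega), mul_zero]
  · simp

lemma form_Tm (v : Fin (m + 1) → ℤ) : ∑ i, ∑ j, v i * Tm α β r i j * v j = 2 * HV α β r v := by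
  have e1 : ∑ i, ∑ j, v i * (if i = j then (if i.val = 0 then 2 * α else 2 * β) else 0) * v j =
      2 * α * (v 0 * v 0) + 2 * β * ∑ j, Fin.tail v j * Fin.tail v j := by
    have : ∀ i, ∑ j, v i * (if i = j then (if i.val = 0 then 2 * α else 2 * β) else 0) * v j =
        (if i.val = 0 then 2 * α else 2 * β) * (v i * v i) := by
      intro i
      rw [Finset.sum_eq_single i]
      · rw [if_pos rfl]; ring
      · intro j _ hj; simp [hj.symm]
      · simp
    rw [Finset.sum_congr rfl fun i _ => this i, Fin.sum_univ_succ, Finset.mul_sum]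
    simp [Fin.tail]
  have e2 : ∑ j, ∑ i, v i * (β * Ad r i j) * v j =
      β * ∑ j, ta r (v 0) (Fin.tail v) j.castSucc * Fin.tail v j := by
    have : ∀ j, ∑ i, v i * (β * Ad r i j) * v j = β * ((∑ i, v i * Ad r i j) * v j) := by
      intro j
      rw [Finset.sum_mul, Finset.mul_sum]
      exact Finset.sum_congr rfl fun i _ => by ring
    rw [Finset.sum_congr rfl fun j _ => this j, ← Finset.mul_sum, Fin.sum_univ_succ]
    have z0 : ∑ i, v i * Ad r i (0 : Fin (m + 1)) = 0 := by simp [Ad]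
    rw [z0, zero_mul, zero_add]
    congr 1
    exact Finset.sum_congr rfl fun j _ => by rw [sum_ad]; rfl
  have e3 : ∑ i, ∑ j, v i * (β * Ad r j i) * v j =
      β * ∑ j, ta r (v 0) (Fin.tail v) j.castSucc * Fin.tail v j := by
    rw [← e2]
    exact Finset.sum_congr rfl fun i _ => Finset.sum_congr rfl fun j _ => by ring
  rw [Finset.sum_comm] at e2
  simp only [Tm, mul_sub, sub_mul, Finset.sum_sub_distrib]
  rw [e1, e2, e3, HV, hC, Finset.sum_sub_distrib]
  ring

def PW (s p : K) (a : Fin (m + 1) → ℕ) : K :=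
  pq s (a (Fin.rev 0)) * ∏ j : Fin m, pq p (a (Fin.rev j.succ))

lemma io_sub {x y : ℕ} (h : y ≤ x) : io q ((x : ℤ) - y) = (pq q (x - y))⁻¹ := by
  rw [io, if_pos (by omega), pz]
  congr 2
  omega

lemma sum_rev (a : Fin (m + 1) → ℕ) (N : ℤ) (hN : ∀ i, (a i : ℤ) ≤ N) (F : (Fin (m + 1) → ℤ) → K) :
    ∑ c ∈ Finset.Iic a, (PW s p (a - c))⁻¹ * F (fun i => c i.rev) =
      ∑ w ∈ box _ N, dW s p (fun i => a i.rev) w * F w := by
  refine Finset.sum_of_injOn (fun c i => (c i.rev : ℤ)) ?_ ?_ ?_ ?_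
  · intro c _ d _ h
    funext i
    have := congrFun h i.rev
    simpa using this
  · intro c hc
    refine mem_box.mpr fun i => ⟨by positivity, le_trans ?_ (hN i.rev)⟩
    exact Int.ofNat_le.mpr (Finset.mem_Iic.mp hc i.rev)
  · intro w hw hnot
    by_contra h
    apply hnot
    have hw' := mem_box.mp hw
    refine ⟨fun i => (w i.rev).toNat, ?_, ?_⟩
    · simp only [Finset.coe_Iic, Set.mem_Iic]
      intro i
      have := dW_ne (left_ne_zero_of_mul h) i.rev
      simp only [Fin.rev_rev] at this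
      show (w i.rev).toNat ≤ a i
      omega
    · funext i
      simp only [Fin.rev_rev]
      exact Int.toNat_of_nonneg (hw' i).1
  · intro c hc
    congr 1
    have hc' : ∀ i, c i ≤ a i := Finset.mem_Iic.mp hc
    rw [PW, dW, mul_inv, ← Finset.prod_inv_distrib, io_sub (hc' _)]
    congr 1
    exact Finset.prod_congr rfl fun j _ => (io_sub (hc' _)).symm

theorem core (S : Subsemiring K) (hqS : q ∈ S) (hq : Good q) (hr : 0 < r) (hβ : 0 < β)
    (hα : 2 * α = β * (r * r)) (hs : s = q ^ α) (hp' : p = q ^ β) (hsg : Good s) (hp : Good p)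
    (hsS : s ∈ S) (hpS : p ∈ S) (hst : Step q s p α β r) (G : Matrix (Fin (m + 1)) (Fin (m + 1)) ℤ)
    (hG : ∀ i j : Fin (m + 1), G i.rev j.rev = Tm α β r i j) (J : (Fin (m + 1) → ℕ) → K)
    (h0 : J 0 = 1) (hJ : ∀ a, J a = ∑ c ∈ Finset.Iic a,
      q ^ ((∑ i, ∑ j, (c i : ℤ) * G i j * (c j : ℤ)) / 2).toNat / PW s p (a - c) * J c)
    (a : Fin (m + 1) → ℕ) : PW s p a ^ 2 * J a ∈ S := by
  have hw : ∀ c : Fin (m + 1) → ℕ, q ^ ((∑ i, ∑ j, (c i : ℤ) * G i j * (c j : ℤ)) / 2).toNat =
      q ^ HV α β r fun i => (c i.rev : ℤ) := by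
    intro c
    have h1 : ∑ i, ∑ j, (c i : ℤ) * G i j * (c j : ℤ) = 2 * HV α β r fun i => (c i.rev : ℤ) := by
      rw [← form_Tm, ← Equiv.sum_comp Fin.revPerm]
      refine Finset.sum_congr rfl fun i _ => ?_
      rw [← Equiv.sum_comp Fin.revPerm]
      exact Finset.sum_congr rfl fun j _ => by rw [← hG]; rfl
    have h2 : 0 ≤ HV α β r fun i => (c i.rev : ℤ) := by
      by_cases hu0 : (fun i : Fin (m + 1) => (c i.rev : ℤ)) = 0
      · rw [hu0, HV_zero]
      · exact (HV_pos hr hβ hα (fun i => by positivity) hu0).le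
    rw [h1, Int.mul_ediv_cancel_left _ two_ne_zero, ← zpow_natCast, Int.toNat_of_nonneg h2]
  set N : ℤ := ∑ i, (a i : ℤ) with hN
  have hle : ∀ i, (a i : ℤ) ≤ N := fun i =>
    Finset.single_le_sum (f := fun i => (a i : ℤ)) (fun _ _ => by positivity) (Finset.mem_univ i)
  have := numer_in S hqS hq hr hβ hα hs hp' hsg hp hsS hpS (fk_of hq hr hα hs hp' hst) N
    (by positivity) (fun v => J fun i => (v i.rev).toNat) h0
    (fun v hv => by
      have hv' := mem_box.mp hv
      have e : ∀ i, (((v i).toNat : ℕ) : ℤ) = v i := fun i => Int.toNat_of_nonneg (hv' i).1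
      have := sum_rev (s := s) (p := p) (fun i => (v i.rev).toNat) N
        (fun i => by rw [e]; exact (hv' _).2)
        (fun w => q ^ HV α β r w * J fun i => (w i.rev).toNat)
      simp only [e, Int.toNat_natCast, Fin.rev_rev] at this
      rw [hJ]
      refine Eq.trans (Finset.sum_congr rfl fun c _ => by rw [hw]; ring)
        (this.trans (Finset.sum_congr rfl fun w _ => by ring)))
    (fun i => (a i.rev : ℤ)) (mem_box.mpr fun i => ⟨by positivity, hle _⟩)
  simpa [pz, PW, Fin.tail] using this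

end Pool.Agent.FS.TodaBC
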