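import Pool.Agent.FS.TodaBC.Exc
import Pool.Agent.FS.TodaBC.Form

set_option autoImplicit false

open Polynomial

namespace Pool.Agent.FS.TodaBC

open Pool.Agent.Lib.MP_4223bd_al

/-! Block sums and renumbering. -/

variable {K : Type*} [Field K] {q : K} {ι κ : Type} [Fintype ι] [DecidableEq ι] [Fintype κ]
  [DecidableEq κ]

def hN (G : Matrix ι ι ℤ) (a : ι → ℕ) : ℕ := ((∑ i, ∑ j, (a i : ℤ) * G i j * (a j : ℤ)) / 2).toNat

def dN (G : Matrix ι ι ℤ) (i : ι) : ℕ := (G i i / 2).toNat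

def SolN (q : K) (G : Matrix ι ι ℤ) (J : (ι → ℕ) → K) : Prop :=
  J 0 = 1 ∧ ∀ a, J a = ∑ c ∈ Finset.Iic a, q ^ hN G c / PK q (dN G) (a - c) * J c

structure PosN (q : K) (S : Subsemiring K) (G : Matrix ι ι ℤ) : Prop where
  d : ∀ i, 0 < dN G i
  ev : ∀ a, QF G a = 2 * hN G a
  pos : ∀ a, a ≠ 0 → 0 < hN G a
  mem : ∀ J, SolN q G J → ∀ a, PK q (dN G) a ^ 2 * J a ∈ S

noncomputable def JN (q : K) (G : Matrix ι ι ℤ) (a : ι → ℕ) : K :=
  if a = 0 then 1 else
    (∑ c ∈ (Finset.Iio a).attach, q ^ hN G c.1 / PK q (dN G) (a - c.1) * JN q G c.1) /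
      (1 - q ^ hN G a)
termination_by ∑ i, a i
decreasing_by
  have h := Finset.mem_Iio.mp c.2
  obtain ⟨h1, i, hi⟩ := Pi.lt_def.mp h
  exact Finset.sum_lt_sum (fun j _ => h1 j) ⟨i, Finset.mem_univ _, hi⟩

lemma sol_JN (hq : Good q) {G : Matrix ι ι ℤ} (hpos : ∀ a, a ≠ 0 → 0 < hN G a) :
    SolN q G (JN q G) := by
  refine ⟨by rw [JN]; simp, fun a => ?_⟩
  by_cases ha : a = 0
  · subst ha
    have : Finset.Iic (0 : ι → ℕ) = {0} := by
      ext c; simp
    rw [this]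
    simp [hN, PK_zero]
  · rw [← Finset.Iio_insert, Finset.sum_insert (by simp)]
    have hne := one_sub_ne hq (n := hN G a) (by exact_mod_cast hpos a ha)
    rw [zpow_natCast] at hne
    have e : JN q G a * (1 - q ^ hN G a) =
        ∑ c ∈ Finset.Iio a, q ^ hN G c / PK q (dN G) (a - c) * JN q G c := by
      conv_lhs => rw [JN]
      rw [if_neg ha, div_mul_cancel₀ _ hne]
      exact Finset.sum_attach (Finset.Iio a) (fun c => q ^ hN G c / PK q (dN G) (a - c) * JN q G c)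
    rw [← e, tsub_self, PK_zero]
    ring

lemma PosN.mk' {S : Subsemiring K} {G : Matrix ι ι ℤ} (d : ∀ i, 0 < dN G i) (h : (ι → ℕ) → ℤ)
    (h1 : ∀ a, QF G a = 2 * h a) (h2 : ∀ a, a ≠ 0 → 0 < h a)
    (mem : ∀ J, SolN q G J → ∀ a, PK q (dN G) a ^ 2 * J a ∈ S) : PosN q S G := by
  have e : ∀ a, (hN G a : ℤ) = h a := by
    intro a
    have h3 := h1 a
    have h0 : 0 ≤ h a := by
      by_cases ha : a = 0
      · rw [ha] at h3 ⊢
        simp only [QF, Pi.zero_apply, Nat.cast_zero, mul_zero, Finset.sum_const_zero] at h3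
        omega
      · exact (h2 a ha).le
    rw [QF] at h3
    rw [hN, h3, Int.mul_ediv_cancel_left _ two_ne_zero, Int.toNat_of_nonneg h0]
  exact ⟨d, fun a => by rw [e, h1], fun a ha => by have := h2 a ha; rw [← e] at this; omega, mem⟩

theorem PosN.sigma (hq : Good q) {S : Subsemiring K} {σ : Type} [Fintype σ] [DecidableEq σ]
    {τ : σ → Type} [∀ s, Fintype (τ s)] [∀ s, DecidableEq (τ s)] (M : ∀ s, Matrix (τ s) (τ s) ℤ)
    (hM : ∀ s, PosN q S (M s)) (G : Matrix ι ι ℤ) (e : ι ≃ Σ s, τ s)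
    (hG : ∀ i j, G i j = Matrix.blockDiagonal' M (e i) (e j)) (J : (ι → ℕ) → K) (hJ : SolN q G J)
    (a : ι → ℕ) : PK q (dN G) a ^ 2 * J a ∈ S := by
  have ed : ∀ s i, dN G (e.symm ⟨s, i⟩) = dN (M s) i := by
    intro s i
    simp only [dN, hG, Equiv.apply_symm_apply, Matrix.blockDiagonal'_apply_eq]
  have ep : ∀ a : ι → ℕ, PK q (dN G) a = ∏ s, PK q (dN (M s)) fun i => a (e.symm ⟨s, i⟩) := by
    intro a
    simp only [PK]
    rw [← Equiv.prod_comp e.symm, Fintype.prod_sigma]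
    simp only [ed]
  have eh : ∀ a : ι → ℕ, hN G a = ∑ s, hN (M s) fun i => a (e.symm ⟨s, i⟩) := by
    intro a
    have h1 : ∑ i, ∑ j, (a i : ℤ) * G i j * (a j : ℤ) =
        2 * ((∑ s, hN (M s) fun i => a (e.symm ⟨s, i⟩) : ℕ) : ℤ) := by
      rw [Nat.cast_sum, Finset.mul_sum, ← Equiv.sum_comp e.symm, Fintype.sum_sigma]
      refine Finset.sum_congr rfl fun s _ => ?_
      rw [← (hM s).ev, QF]
      refine Finset.sum_congr rfl fun i _ => ?_
      rw [← Equiv.sum_comp e.symm, Fintype.sum_sigma, Finset.sum_eq_single s]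
      · simp only [hG, Equiv.apply_symm_apply, Matrix.blockDiagonal'_apply_eq]
      · intro t _ ht
        simp [hG, Matrix.blockDiagonal'_apply_ne _ _ _ ht.symm]
      · simp
    rw [hN, h1, Int.mul_ediv_cancel_left _ two_ne_zero, Int.toNat_natCast]
  have hs := fun s => sol_JN hq (hM s).pos
  have h := (sol_eq hq (D := dN G) (h := hN G) (fun i => by
      obtain ⟨⟨s, i⟩, rfl⟩ := e.symm.surjective i
      rw [ed]; exact (hM s).d i) (fun a ha => by
      obtain ⟨i, hi⟩ := Function.ne_iff.mp ha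
      obtain ⟨⟨s, i⟩, rfl⟩ := e.symm.surjective i
      rw [eh]
      exact Finset.sum_pos' (fun t _ => Nat.zero_le _)
        ⟨s, Finset.mem_univ _, (hM s).pos _ fun h0 => hi (congrFun h0 i)⟩)
    (J' := fun a => ∏ s, JN q (M s) fun i => a (e.symm ⟨s, i⟩)) hJ.1
    (Finset.prod_eq_one fun s _ => (hs s).1) hJ.2 (fun a => by
      beta_reduce
      rw [Finset.prod_congr rfl fun s _ => (hs s).2 _, Finset.prod_univ_sum]
      symm
      refine Finset.sum_nbij' (fun c s i => c (e.symm ⟨s, i⟩)) (fun x k => x (e k).1 (e k).2)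
        ?_ ?_ ?_ ?_ ?_
      · intro c hc
        rw [Finset.mem_Iic] at hc
        exact Fintype.mem_piFinset.mpr fun s => Finset.mem_Iic.mpr fun i => hc _
      · intro x hx
        refine Finset.mem_Iic.mpr fun k => ?_
        have := Finset.mem_Iic.mp (Fintype.mem_piFinset.mp hx (e k).1) (e k).2
        simpa using this
      · intro c _
        funext k
        simp
      · intro x _
        funext s i
        exact congrArg (fun p : Σ s, τ s => x p.1 p.2) (e.apply_symm_apply ⟨s, i⟩)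
      · intro c _
        rw [Finset.prod_mul_distrib, Finset.prod_div_distrib, Finset.prod_pow_eq_pow_sum, ep, eh]
        rfl) a).1
  rw [h, ep, ← Finset.prod_pow, ← Finset.prod_mul_distrib]
  exact prod_mem fun s _ => (hM s).mem _ (hs s) _

theorem PosN.of_nice (hq : Good q) (φ : ℕ[X] →+* K) (hφ : φ X = q) {A : Matrix ι ι ℤ}
    (hA : ∀ i, A i i = 2) (hn : Nice q A) : PosN q φ.rangeS A := by
  obtain ⟨h, h1, h2, J', hJ', h3⟩ := hn
  have hd : ∀ i, dN A i = 1 := fun i => by rw [dN, hA]; rfl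
  have ep : ∀ a, PK q (dN A) a = poch q a := fun a => by simp only [PK, hd, pow_one, poch]
  have P : PosN q ⊤ A := PosN.mk' (fun i => by rw [hd]; exact one_pos) h h1 h2 fun _ _ _ => trivial
  refine ⟨P.d, P.ev, P.pos, fun J hJ a => ?_⟩
  have e : ∀ c, q ^ hN A c = q ^ h c := by
    intro c
    have h4 := P.ev c
    rw [h1] at h4
    rw [← zpow_natCast, show (hN A c : ℤ) = h c by omega]
  have hJ2 : IsSol q h J := ⟨hJ.1, fun a => by simpa only [e, ep] using hJ.2 a⟩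
  obtain ⟨c, p, hp, hpe⟩ := h3 a
  obtain ⟨c0, -, -⟩ := SU_coeff hp
  have hl : p ∈ lifts (Nat.castRingHom ℤ) := by
    rw [lifts_iff_coeff_lifts]
    exact fun k => ⟨(p.coeff k).toNat, Int.toNat_of_nonneg (c0 k)⟩
  obtain ⟨p', rfl⟩ := (mem_lifts _).mp hl
  have hev : (Lib.MP_4223bd_al.ev q).comp (mapRingHom (Nat.castRingHom ℤ)) = φ :=
    Polynomial.ringHom_ext' (Subsingleton.elim _ _) (by simp [hφ])
  refine ⟨p', ?_⟩
  rw [ep, sol_unique hq h2 hJ2 hJ' a, ← hpe, ← hev]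
  rfl

lemma form_rev {m : ℕ} {α β r : ℤ} {G : Matrix (Fin (m + 1)) (Fin (m + 1)) ℤ}
    (hG : ∀ i j : Fin (m + 1), G i.rev j.rev = Tm α β r i j) (c : Fin (m + 1) → ℕ) :
    QF G c = 2 * HV α β r fun i => (c i.rev : ℤ) := by
  rw [QF, ← form_Tm, ← Equiv.sum_comp Fin.revPerm]
  refine Finset.sum_congr rfl fun i _ => ?_
  rw [← Equiv.sum_comp Fin.revPerm]
  exact Finset.sum_congr rfl fun j _ => by rw [← hG]; rfl

lemma pos_rev {m : ℕ} {α β r : ℤ} (hr : 0 < r) (hβ : 0 < β) (hα : 2 * α = β * (r * r))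
    (c : Fin (m + 1) → ℕ) (hc : c ≠ 0) : 0 < HV α β r fun i => (c i.rev : ℤ) := by
  refine HV_pos hr hβ hα (fun i => by positivity) fun h => hc ?_
  funext i
  simpa using congrFun h i.rev

end Pool.Agent.FS.TodaBC
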