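import Pool.Agent.Lib.MP_4223bd_al.Bip

set_option autoImplicit false

open Polynomial

namespace Pool.Agent.FS.TodaBC

open Pool.Agent.Lib.MP_4223bd_al

/-! The recursion for twisted traces when every vertex has its own base. -/

variable {K : Type*} [Field K] {q : K} {R : Type*} [Ring R] [Algebra K R]

lemma weyl_monv {n : ℕ} {s : Fin n → K} (hs : ∀ j, Good (s j)) {e e' p : Fin n → R}
    (rel : ∀ j, e j * e' j = s j • (e' j * e j) + (1 - s j) • p j)
    (off : ∀ i j, i ≠ j → Commute (e i) (e' j)) (pe : ∀ i j, Commute (p i) (e j))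
    (pe' : ∀ i j, Commute (p i) (e' j)) (a : Fin n → ℕ) :
    mon e a * mon e' a = ∑ g ∈ Finset.Iic a,
      (∏ j, W2 (s j) (a j) (g j)) • (mon p (a - g) * mon e' g * mon e g) := by
  induction n with
  | zero =>
    have : Finset.Iic a = {a} := by
      ext c; simp [Subsingleton.elim c a]
    simp [this, mon_zero']
  | succ n ih =>
    have h' := ih (s := fun j => s j.succ) (fun j => hs _) (e := fun j => e j.succ)
      (e' := fun j => e' j.succ) (p := fun j => p j.succ) (fun j => rel _)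
      (fun i j hij => off _ _ fun h0 => hij (Fin.succ_injective _ h0)) (fun i j => pe _ _)
      (fun i j => pe' _ _)
    have c1 : Commute (e' 0 ^ a 0) (mon (fun j => e j.succ) fun j => a j.succ) :=
      commute_mon (fun j => ((off j.succ 0 (Fin.succ_ne_zero j)).symm.pow_left _)) _
    rw [sum_Iic_cons, mon_succ, mon_succ e', mul_assoc, ← mul_assoc (mon _ _), ← c1.eq, mul_assoc,
      ← mul_assoc, h', weyl_diag (hs 0) (rel 0) (pe 0 0) (pe' 0 0), Finset.sum_mul]
    refine Finset.sum_congr rfl fun x _ => ?_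
    rw [Finset.mul_sum]
    refine Finset.sum_congr rfl fun t _ => ?_
    rw [smul_mul_assoc, mul_smul_comm, smul_smul, Fin.prod_univ_succ, mon_succ p, mon_succ e',
      mon_succ e]
    simp only [Fin.cons_zero, Fin.cons_succ, Pi.sub_apply]
    congr 1
    set P := mon (fun j => p j.succ) ((fun j => a j.succ) - t) with hP
    have c2 : Commute (e' 0 ^ x) P := commute_mon (fun j => ((pe' j.succ 0).symm.pow_left _)) _
    have c3 : Commute (e 0 ^ x) P := commute_mon (fun j => ((pe j.succ 0).symm.pow_left _)) _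
    have c4 : Commute (e 0 ^ x) (mon (fun j => e' j.succ) t) :=
      commute_mon (fun j => ((off 0 j.succ (Fin.succ_ne_zero j).symm).pow_left _)) _
    change _ = p 0 ^ (a 0 - x) * P * _ * _
    simp only [mul_assoc]
    congr 1
    rw [← mul_assoc (e 0 ^ x), c3.eq, mul_assoc, ← mul_assoc (e' 0 ^ x), c2.eq, mul_assoc,
      ← mul_assoc (e 0 ^ x), c4.eq, mul_assoc]

lemma mon_one {n : ℕ} (a : Fin n → ℕ) : mon (fun _ : Fin n => (1 : R)) a = 1 := by
  induction n with
  | zero => exact mon_zero' _ _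
  | succ n ih => rw [mon_succ, ih, one_pow, one_mul]

/-- The relations between the generators. -/
structure Rel2 (q : K) {n n' : ℕ} (s : Fin n → K) (t : Fin n' → K) (l : Fin n → Fin n' → ℤ)
    (A : Submonoid R) (a a' : Fin n → R) (b b' r ri : Fin n' → R) : Prop where
  ra : ∀ j, a j * a' j = s j • (a' j * a j) + (1 - s j) • (1 : R)
  oa : ∀ i j, i ≠ j → Commute (a i) (a' j)
  rb : ∀ j, b j * b' j = t j • (b' j * b j) + (1 - t j) • r j
  ob : ∀ i j, i ≠ j → Commute (b i) (b' j)
  rb1 : ∀ i j, Commute (r i) (b j)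
  rb2 : ∀ i j, Commute (r i) (b' j)
  ab' : ∀ i j, Commute (a i) (b' j)
  ba' : ∀ j i, Commute (b j) (a' i)
  rir : ∀ i, ri i * r i = 1
  rir' : ∀ i j, Commute (ri i) (r j)
  rib : ∀ i j, Commute (ri i) (b j)
  ar : ∀ i j, a i * r j = q ^ (-l i j) • (r j * a i)
  ari : ∀ i j, a i * ri j = q ^ l i j • (ri j * a i)
  ma : ∀ i, a i ∈ A
  ma' : ∀ i, a' i ∈ A
  mb : ∀ i, b i ∈ A
  mb' : ∀ i, b' i ∈ A
  mri : ∀ i, ri i ∈ A

theorem trace_rec2 (hq : Good q) {n n' : ℕ} {s : Fin n → K} {t : Fin n' → K}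
    (hs : ∀ j, Good (s j)) (ht : ∀ j, Good (t j)) {l : Fin n → Fin n' → ℤ} {A : Submonoid R}
    {a a' : Fin n → R} {b b' r ri : Fin n' → R} (h : Rel2 q s t l A a a' b b' r ri)
    (T : R →ₗ[K] K) (hT : ∀ x ∈ A, ∀ y ∈ A, T (x * y) = T (y * x))
    (x : Fin n → ℕ) (y : Fin n' → ℕ) :
    T (mon ri y * (mon a x * mon b' y) * (mon b y * mon a' x)) =
      ∑ g ∈ Finset.Iic x, ∑ d ∈ Finset.Iic y,
        (∏ i, W2 (s i) (x i) (g i)) * (∏ j, W2 (t j) (y j) (d j)) *
          q ^ (∑ i, ∑ j, (g i : ℤ) * l i j * d j) *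
          T (mon ri d * (mon a g * mon b' d) * (mon b d * mon a' g)) := by
  have s1 : mon ri y * (mon a x * mon b' y) * (mon b y * mon a' x) =
      mon ri y * mon b' y * (mon a x * mon a' x) * mon b y := by
    rw [(mon_commute h.ab' x y).eq, (mon_commute h.ba' y x).eq]
    simp only [mul_assoc]
  rw [s1, weyl_monv hs (p := fun _ => 1) h.ra h.oa (fun _ _ => Commute.one_left _)
    (fun _ _ => Commute.one_left _), Finset.mul_sum, Finset.sum_mul, map_sum]
  refine Finset.sum_congr rfl fun g hg => ?_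
  have s2 : mon ri y * mon b' y * (mon (fun _ => (1 : R)) (x - g) * mon a' g * mon a g) * mon b y =
      (mon ri y * (mon b' y * mon a' g)) * (mon a g * mon b y) := by
    rw [mon_one]
    simp only [mul_assoc, one_mul]
  have s3 : (mon a g * mon b y) * (mon ri y * (mon b' y * mon a' g)) =
      q ^ (∑ i, ∑ j, (g i : ℤ) * l i j * y j) •
        (mon ri y * mon a g * (mon b y * mon b' y) * mon a' g) := by
    have c3 := (mon_commute h.rib y y).eq
    have c4 := qc_mon_mon hq h.ari g y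
    calc _ = mon a g * (mon b y * mon ri y) * (mon b' y * mon a' g) := by
          simp only [mul_assoc]
      _ = (mon a g * mon ri y) * mon b y * (mon b' y * mon a' g) := by
          rw [← c3]; simp only [mul_assoc]
      _ = _ := by
          rw [c4]; simp only [smul_mul_assoc, mul_assoc]
  rw [mul_smul_comm, smul_mul_assoc, map_smul, s2, hT _ (mul_mem
    (mon_mem A h.mri _) (mul_mem (mon_mem A h.mb' _) (mon_mem A h.ma' _))) _
    (mul_mem (mon_mem A h.ma _) (mon_mem A h.mb _)), s3, map_smul,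
    weyl_monv ht h.rb h.ob h.rb1 h.rb2,
    Finset.mul_sum, Finset.sum_mul, map_sum, Finset.smul_sum, Finset.smul_sum]
  refine Finset.sum_congr rfl fun d hd => ?_
  have hd' := Finset.mem_Iic.mp hd
  have s4 : mon ri y * mon a g * (mon r (y - d) * mon b' d * mon b d) * mon a' g =
      q ^ (∑ i, ∑ j, (g i : ℤ) * (-l i j) * (y - d) j) •
        (mon ri d * (mon a g * mon b' d) * (mon b d * mon a' g)) := by
    have c1 := qc_mon_mon hq h.ar g (y - d)
    rw [← mon_inv h.rir h.rir' hd']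
    calc _ = mon ri y * (mon a g * mon r (y - d)) * mon b' d * mon b d * mon a' g := by
          simp only [mul_assoc]
      _ = _ := by
          rw [c1]; simp only [mul_smul_comm, smul_mul_assoc, mul_assoc]
  have ex : (∑ i, ∑ j, (g i : ℤ) * l i j * d j) = (∑ i, ∑ j, (g i : ℤ) * l i j * y j) +
      ∑ i, ∑ j, (g i : ℤ) * (-l i j) * (y - d) j := by
    rw [← Finset.sum_add_distrib]
    refine Finset.sum_congr rfl fun i _ => ?_
    rw [← Finset.sum_add_distrib]
    refine Finset.sum_congr rfl fun j _ => ?_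
    rw [Pi.sub_apply, Nat.cast_sub (hd' j)]
    ring
  rw [mul_smul_comm, smul_mul_assoc, map_smul, s4, map_smul, ex, zpow_add₀ hq.1]
  simp only [smul_eq_mul]
  ring

/-! Lists of monomials in a quantum torus. -/

def dc (l : List ℤ) : ℕ → ℤ := fun i => l.getD i 0

def ladd : List ℤ → List ℤ → List ℤ
  | [], y => y
  | x :: xs, [] => x :: xs
  | x :: xs, y :: ys => (x + y) :: ladd xs ys

lemma dc_ladd : ∀ x y : List ℤ, dc (ladd x y) = dc x + dc y
  | [], y => by funext i; simp [dc, ladd]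
  | x :: xs, [] => by funext i; simp [dc, ladd]
  | x :: xs, y :: ys => by
    funext i
    cases i with
    | zero => simp [dc, ladd]
    | succ i => simpa [dc, ladd] using congrFun (dc_ladd xs ys) i

def dotF : List ℤ → (ℕ → ℤ) → ℤ
  | [], _ => 0
  | c :: cs, y => c * y 0 + dotF cs fun i => y (i + 1)

def dotL : List ℤ → List ℤ → ℤ
  | [], _ => 0
  | _ :: _, [] => 0
  | c :: cs, y :: ys => c * y + dotL cs ys

lemma dotF_add : ∀ (c : List ℤ) (y w : ℕ → ℤ), dotF c (y + w) = dotF c y + dotF c w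
  | [], _, _ => rfl
  | c :: cs, y, w => by
    have := dotF_add cs (fun i => y (i + 1)) (fun i => w (i + 1))
    simp only [dotF, Pi.add_apply]
    rw [show (fun i => y (i + 1) + w (i + 1)) = (fun i => y (i + 1)) + fun i => w (i + 1) from rfl,
      this]
    ring

lemma dotF_dc : ∀ c y : List ℤ, dotF c (dc y) = dotL c y
  | [], _ => rfl
  | c :: cs, [] => by
    have := dotF_dc cs []
    have h : dotL cs [] = 0 := by cases cs <;> rfl
    rw [dotF, dotL, show (fun i => dc [] (i + 1)) = dc [] from rfl, this, h]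
    simp [dc]
  | c :: cs, y :: ys => by
    rw [dotF, dotL, show (fun i => dc (y :: ys) (i + 1)) = dc ys from rfl, dotF_dc cs ys]
    rfl

def bF : List (List ℤ) → (ℕ → ℤ) → (ℕ → ℤ) → ℤ
  | [], _, _ => 0
  | r :: rs, x, y => x 0 * dotF r y + bF rs (fun i => x (i + 1)) y

def bL : List (List ℤ) → List ℤ → List ℤ → ℤ
  | [], _, _ => 0
  | _ :: _, [], _ => 0
  | r :: rs, x :: xs, y => (if x = 0 then 0 else x * dotL r y) + bL rs xs y

lemma bF_left : ∀ (c : List (List ℤ)) (x y w : ℕ → ℤ), bF c (x + y) w = bF c x w + bF c y w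
  | [], _, _, _ => rfl
  | c :: cs, x, y, w => by
    have := bF_left cs (fun i => x (i + 1)) (fun i => y (i + 1)) w
    simp only [bF, Pi.add_apply]
    rw [show (fun i => x (i + 1) + y (i + 1)) = (fun i => x (i + 1)) + fun i => y (i + 1) from rfl,
      this]
    ring

lemma bF_right : ∀ (c : List (List ℤ)) (x y w : ℕ → ℤ), bF c x (y + w) = bF c x y + bF c x w
  | [], _, _, _ => rfl
  | c :: cs, x, y, w => by
    simp only [bF, dotF_add, bF_right cs]
    ring

lemma bF_dc : ∀ (c : List (List ℤ)) (x y : List ℤ), bF c (dc x) (dc y) = bL c x y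
  | [], _, _ => rfl
  | c :: cs, [], y => by
    have := bF_dc cs [] y
    have h : bL cs [] y = 0 := by cases cs <;> rfl
    rw [bF, bL, show (fun i => dc [] (i + 1)) = dc [] from rfl, this, h]
    simp [dc]
  | c :: cs, x :: xs, y => by
    rw [bF, bL, show (fun i => dc (x :: xs) (i + 1)) = dc xs from rfl, bF_dc cs xs y, dotF_dc]
    congr 1
    show x * _ = _
    split_ifs with h
    · rw [h, zero_mul]
    · rfl

def fm (C : List (List ℤ)) : Form (ℕ → ℤ) := ⟨bF C, bF_left C, bF_right C⟩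

abbrev TL := List (List ℤ × ℤ)

noncomputable def vl (C : List (List ℤ)) (q : K) (u : TL) : En K (ℕ → ℤ) :=
  (u.map fun t => q ^ t.2 • z (fm C) q (dc t.1)).sum

def mulL (C : List (List ℤ)) (u v : TL) : TL :=
  u.flatMap fun s => v.map fun t => (ladd s.1 t.1, s.2 + t.2 + bL C s.1 t.1)

def shL (c : ℤ) (u : TL) : TL := u.map fun t => (t.1, c + t.2)

variable {C : List (List ℤ)}

lemma vl_append (u v : TL) : vl C q (u ++ v) = vl C q u + vl C q v := by simp [vl]

lemma vl_sh (hq : Good q) (c : ℤ) (u : TL) : vl C q (shL c u) = q ^ c • vl C q u := by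
  induction u with
  | nil => simp [vl, shL]
  | cons t u ih =>
    simp only [vl, shL, List.map_cons, List.sum_cons, smul_add] at ih ⊢
    rw [ih, smul_smul, zpow_add₀ hq.1]

lemma vl_mul (hq : Good q) (u v : TL) : vl C q (mulL C u v) = vl C q u * vl C q v := by
  induction u with
  | nil => simp [vl, mulL]
  | cons s u ih =>
    have h : mulL C (s :: u) v =
        (v.map fun t => (ladd s.1 t.1, s.2 + t.2 + bL C s.1 t.1)) ++ mulL C u v := rfl
    rw [h, vl_append, ih, show vl C q (s :: u) = q ^ s.2 • z (fm C) q (dc s.1) + vl C q u from rfl,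
      add_mul]
    congr 1
    simp only [vl, List.map_map, ← List.sum_map_mul_left]
    congr 1
    refine List.map_congr_left fun t _ => ?_
    simp only [Function.comp]
    rw [smul_mul_assoc, mul_smul_comm, z_mul _ hq, smul_smul, smul_smul, dc_ladd, zpow_add₀ hq.1,
      zpow_add₀ hq.1, ← bF_dc]
    rfl

lemma vl_perm {u v : TL} (h : u.isPerm v = true) : vl C q u = vl C q v :=
  ((List.isPerm_iff.mp h).map _).sum_eq

/-- `u v = q ^ c v u`. -/
def qcB (C : List (List ℤ)) (c : ℤ) (u v : TL) : Bool := (mulL C u v).isPerm (shL c (mulL C v u))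

lemma qc_ok (hq : Good q) {c : ℤ} {u v : TL} (h : qcB C c u v = true) :
    vl C q u * vl C q v = q ^ c • (vl C q v * vl C q u) := by
  rw [← vl_mul hq, ← vl_mul hq, ← vl_sh hq]
  exact vl_perm h

lemma cm_ok (hq : Good q) {u v : TL} (h : qcB C 0 u v = true) :
    Commute (vl C q u) (vl C q v) := by
  have := qc_ok hq h
  rwa [zpow_zero, one_smul] at this

/-- `u v = q ^ c v u + (1 - q ^ c) p`. -/
def wyB (C : List (List ℤ)) (c : ℤ) (u v p : TL) : Bool :=
  (mulL C u v ++ shL c p).isPerm (shL c (mulL C v u) ++ p)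

lemma wy_alg {x y p : R} {s : K} (h : x + s • p = s • y + p) : x = s • y + (1 - s) • p := by
  rw [sub_smul, one_smul, ← add_sub_assoc, ← h, add_sub_cancel_right]

lemma wy_ok (hq : Good q) {c : ℤ} {u v p : TL} (h : wyB C c u v p = true) :
    vl C q u * vl C q v = q ^ c • (vl C q v * vl C q u) + (1 - q ^ c) • vl C q p := by
  have := vl_perm (C := C) (q := q) h
  rw [vl_append, vl_append, vl_sh hq, vl_sh hq, vl_mul hq, vl_mul hq] at this
  exact wy_alg (R := En K (ℕ → ℤ)) this


lemma vl_one : vl C q [([], 0)] = 1 := by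
  have : dc [] = 0 := by funext i; simp [dc]
  simp [vl, this, z_zero]

def PosM (C : List (List ℤ)) (hq : Good q) : Submonoid (En K (ℕ → ℤ)) where
  carrier := {u | ∃ L, vl C q L = u}
  one_mem' := ⟨_, vl_one⟩
  mul_mem' := by
    rintro _ _ ⟨u, rfl⟩ ⟨v, rfl⟩
    exact ⟨_, vl_mul hq u v⟩

lemma vl_Sp (u : TL) : vl C q u ∈ Sp (fm C) q Set.univ := by
  refine list_sum_mem fun x hx => ?_
  obtain ⟨t, -, rfl⟩ := List.mem_map.mp hx
  exact Submodule.smul_mem _ _ (z_mem _ (Set.mem_univ _))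

lemma tr_vl (hq : Good q) (S : Subsemiring K) (hS : q ∈ S) (u : TL) :
    ∃ D : ℕ, q ^ D * tr (vl C q u) ∈ S := by
  induction u with
  | nil => exact ⟨0, by simp [vl]⟩
  | cons t u ih =>
    obtain ⟨D, hD⟩ := ih
    refine ⟨D + t.2.natAbs, ?_⟩
    rw [show vl C q (t :: u) = q ^ t.2 • z (fm C) q (dc t.1) + vl C q u from rfl, map_add,
      map_smul, tr_z, mul_add]
    refine add_mem ?_ ?_
    · split_ifs
      · rw [smul_eq_mul, mul_one, ← zpow_natCast, ← zpow_add₀ hq.1,
          ← Int.toNat_of_nonneg (a := ((D + t.2.natAbs : ℕ) : ℤ) + t.2) (by omega), zpow_natCast]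
        exact pow_mem hS _
      · simp
    · rw [add_comm, pow_add, mul_assoc]
      exact mul_mem (pow_mem hS _) hD

theorem bos_core (hq : Good q) (S : Subsemiring K) (hS : q ∈ S) {n n' : ℕ} (d : Fin n → ℕ)
    (d' : Fin n' → ℕ) (hd : ∀ j, Good (q ^ d j)) (hd' : ∀ j, Good (q ^ d' j))
    (l : Fin n → Fin n' → ℤ) (a a' : Fin n → TL) (b b' r ri : Fin n' → TL) (o : TL)
    (ho : vl C q o = 1)
    (ra : ∀ j, wyB C (d j) (a j) (a' j) o = true)
    (oa : ∀ i j, i ≠ j → qcB C 0 (a i) (a' j) = true)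
    (rb : ∀ j, wyB C (d' j) (b j) (b' j) (r j) = true)
    (ob : ∀ i j, i ≠ j → qcB C 0 (b i) (b' j) = true)
    (h1 : ∀ i j, qcB C 0 (r i) (b j) = true ∧ qcB C 0 (r i) (b' j) = true ∧
      qcB C 0 (ri i) (r j) = true ∧ qcB C 0 (ri i) (b j) = true)
    (h2 : ∀ i j, qcB C 0 (a i) (b' j) = true ∧ qcB C 0 (b j) (a' i) = true ∧
      qcB C (-l i j) (a i) (r j) = true ∧ qcB C (l i j) (a i) (ri j) = true)
    (h3 : ∀ i, (mulL C (ri i) (r i)).isPerm o = true) :
    ∃ F : (Fin n → ℕ) → (Fin n' → ℕ) → K, F 0 0 = 1 ∧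
      (∀ x y, F x y = ∑ g ∈ Finset.Iic x, ∑ e ∈ Finset.Iic y,
        (∏ i, W2 (q ^ d i) (x i) (g i)) * (∏ j, W2 (q ^ d' j) (y j) (e j)) *
          q ^ (∑ i, ∑ j, (g i : ℤ) * l i j * e j) * F g e) ∧
      ∀ x y, ∃ D : ℕ, q ^ D * F x y ∈ S := by
  have R : Rel2 q (fun j => q ^ d j) (fun j => q ^ d' j) l (PosM C hq) (fun i => vl C q (a i))
      (fun i => vl C q (a' i)) (fun i => vl C q (b i)) (fun i => vl C q (b' i))
      (fun i => vl C q (r i)) (fun i => vl C q (ri i)) :=
    { ra := fun j => by simpa only [zpow_natCast, ho] using wy_ok hq (ra j)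
      oa := fun i j h => cm_ok hq (oa i j h)
      rb := fun j => by simpa only [zpow_natCast] using wy_ok hq (rb j)
      ob := fun i j h => cm_ok hq (ob i j h)
      rb1 := fun i j => cm_ok hq (h1 i j).1
      rb2 := fun i j => cm_ok hq (h1 i j).2.1
      ab' := fun i j => cm_ok hq (h2 i j).1
      ba' := fun j i => cm_ok hq (h2 i j).2.1
      rir := fun i => by rw [← vl_mul hq, vl_perm (h3 i), ho]
      rir' := fun i j => cm_ok hq (h1 i j).2.2.1
      rib := fun i j => cm_ok hq (h1 i j).2.2.2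
      ar := fun i j => qc_ok hq (h2 i j).2.2.1
      ari := fun i j => qc_ok hq (h2 i j).2.2.2
      ma := fun _ => ⟨_, rfl⟩
      ma' := fun _ => ⟨_, rfl⟩
      mb := fun _ => ⟨_, rfl⟩
      mb' := fun _ => ⟨_, rfl⟩
      mri := fun _ => ⟨_, rfl⟩ }
  refine ⟨_, by simp only [mon_zero, mul_one, tr_one], trace_rec2 hq hd hd' R tr ?_, fun x y => ?_⟩
  · rintro _ ⟨u, rfl⟩ _ ⟨v, rfl⟩
    exact tr_comm _ hq (vl_Sp u) (vl_Sp v)
  · have k1 := mon_mem (R := En K (ℕ → ℤ)) (PosM C hq) R.mri y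
    have k2 := mon_mem (R := En K (ℕ → ℤ)) (PosM C hq) R.ma x
    have k3 := mon_mem (R := En K (ℕ → ℤ)) (PosM C hq) R.mb' y
    have k4 := mon_mem (R := En K (ℕ → ℤ)) (PosM C hq) R.mb y
    have k5 := mon_mem (R := En K (ℕ → ℤ)) (PosM C hq) R.ma' x
    obtain ⟨L, hL⟩ := (PosM C hq).mul_mem ((PosM C hq).mul_mem k1 ((PosM C hq).mul_mem k2 k3))
      ((PosM C hq).mul_mem k4 k5)
    rw [← hL]
    exact tr_vl hq S hS L

lemma vl_zero (u : List ℤ) (h : u.all (· == 0) = true) : vl C q [(u, 0)] = 1 := by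
  have : dc u = 0 := by
    funext i
    rw [dc, List.getD_eq_getElem?_getD]
    rcases hi : u[i]? with _ | x
    · rfl
    · simpa using List.all_eq_true.mp h x (List.mem_of_getElem? hi)
  simp [vl, this, z_zero]

end Pool.Agent.FS.TodaBC
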