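import Pool.Agent.FS.TodaBC.Bos

set_option autoImplicit false

namespace Pool.Agent.FS.TodaBC

open Pool.Agent.Lib.MP_4223bd_al

/-! Realisations of the generators in quantum tori for `F4` and `G2` (machine generated data). -/

def CG : List (List ℤ) :=
  [[0, -3, 3, -3, 3, -3, 3],
   [0, 0, 0, 1, 0, 1, 0],
   [0, 0, 0, -3, 3, -3, 3],
   [0, 0, 0, 0, 0, 1, 0],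
   [0, 0, 0, 0, 0, -3, 3],
   [0, 0, 0, 0, 0, 0, 0],
   [0, 0, 0, 0, 0, 0, 0]]

def aG0 : TL :=
  [([1, 0, 0, 0, 0, 0, 0], 0),
    ([0, 0, 1, 0, 0, 0, 0], 0),
    ([0, 0, 0, 0, 1, 0, 0], 0)]

def aG : Fin 1 → TL := ![aG0]

def cG0 : TL :=
  [([-1, 0, 0, 0, 0, 0, 0], 0)]

def cG : Fin 1 → TL := ![cG0]

def bG0 : TL :=
  [([0, 1, 0, 0, 0, 0, 1], 0),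
    ([0, 0, 0, 1, 0, 0, 1], 0),
    ([0, 0, 0, 0, 0, 1, 1], 0)]

def bG : Fin 1 → TL := ![bG0]

def eG0 : TL :=
  [([1, 1, 0, -1, -1, -1, 0], -2),
    ([1, 1, 0, -2, -1, 0, 0], -1),
    ([1, 0, -1, -1, 0, 0, 0], -2),
    ([1, 0, -1, -1, 0, 0, 0], -1),
    ([1, -1, -1, 0, 0, 0, 0], 0),
    ([1, 1, -1, -2, 0, 0, 0], -4),
    ([0, -1, 0, 0, 0, 0, 0], 0)]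

def eG : Fin 1 → TL := ![eG0]

def rG0 : TL :=
  [([0, 0, 0, 0, 0, 0, 1], 0)]

def rG : Fin 1 → TL := ![rG0]

def sG0 : TL :=
  [([0, 0, 0, 0, 0, 0, -1], 0)]

def sG : Fin 1 → TL := ![sG0]

def oG : List ℤ := [0, 0, 0, 0, 0, 0, 0]

def dG : Fin 1 → ℕ := ![3]

def fG : Fin 1 → ℕ := ![1]

def lG : Fin 1 → Fin 1 → ℤ := ![![-3]]

theorem realG {K : Type*} [Field K] {q : K} (hq : Good q) (S : Subsemiring K) (hS : q ∈ S)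
    (hd : ∀ j, Good (q ^ dG j)) (hd' : ∀ j, Good (q ^ fG j)) :
    ∃ F : (Fin 1 → ℕ) → (Fin 1 → ℕ) → K, F 0 0 = 1 ∧
      (∀ x y, F x y = ∑ g ∈ Finset.Iic x, ∑ e ∈ Finset.Iic y,
        (∏ i, W2 (q ^ dG i) (x i) (g i)) * (∏ j, W2 (q ^ fG j) (y j) (e j)) *
          q ^ (∑ i, ∑ j, (g i : ℤ) * lG i j * e j) * F g e) ∧
      ∀ x y, ∃ D : ℕ, q ^ D * F x y ∈ S :=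
  bos_core (C := CG) hq S hS dG fG hd hd' lG aG cG bG eG rG sG [(oG, 0)]
    (vl_zero _ (by decide +kernel)) (by decide +kernel) (by decide +kernel) (by decide +kernel)
    (by decide +kernel) (by decide +kernel) (by decide +kernel) (by decide +kernel)

def CH : List (List ℤ) :=
  [[0, -2, 0, 0, 2, -2, 2, 0, 0, -2, 0, 0, 2, -2, 2, 0, -2, 2, 0, 0, 0, -2, 0, 0, 2, 0],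
   [0, 0, 0, 0, 0, 2, 0, 0, 0, 2, 0, 0, 0, 2, 0, 0, 2, 0, 0, 0, 0, 2, 0, 0, 0, 0],
   [0, 0, 0, -1, 0, -2, 0, 1, -1, -2, 1, -1, 0, -2, 0, 1, -2, 0, 1, -1, 1, -2, 1, -1, 2, 1],
   [0, 0, 0, 0, 0, 0, 0, 0, 1, 0, 0, 1, 0, 0, 0, 0, 0, 0, 0, 1, 0, 0, 0, 1, 0, 0],
   [0, 0, 0, 0, 0, -2, 2, 0, 0, -2, 0, 0, 2, -2, 2, 0, -2, 2, 0, 0, 0, -2, 0, 0, 2, 0],
   [0, 0, 0, 0, 0, 0, 0, 0, 0, 2, 0, 0, 0, 2, 0, 0, 2, 0, 0, 0, 0, 2, 0, 0, 0, 0],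
   [0, 0, 0, 0, 0, 0, 0, 0, 0, -2, 0, 0, 2, -2, 2, 0, -2, 2, 0, 0, 0, -2, 0, 0, 2, 0],
   [0, 0, 0, 0, 0, 0, 0, 0, -1, -2, 1, -1, 0, -2, 0, 1, -2, 0, 1, -1, 1, -2, 1, -1, 2, 1],
   [0, 0, 0, 0, 0, 0, 0, 0, 0, 0, 0, 1, 0, 0, 0, 0, 0, 0, 0, 1, 0, 0, 0, 1, 0, 0],
   [0, 0, 0, 0, 0, 0, 0, 0, 0, 0, 0, 0, 0, 2, 0, 0, 2, 0, 0, 0, 0, 2, 0, 0, 0, 0],
   [0, 0, 0, 0, 0, 0, 0, 0, 0, 0, 0, -1, 0, -2, 0, 1, -2, 0, 1, -1, 1, -2, 1, -1, 2, 1],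
   [0, 0, 0, 0, 0, 0, 0, 0, 0, 0, 0, 0, 0, 0, 0, 0, 0, 0, 0, 1, 0, 0, 0, 1, 0, 0],
   [0, 0, 0, 0, 0, 0, 0, 0, 0, 0, 0, 0, 0, -2, 2, 0, -2, 2, 0, 0, 0, -2, 0, 0, 2, 0],
   [0, 0, 0, 0, 0, 0, 0, 0, 0, 0, 0, 0, 0, 0, 0, 0, 2, 0, 0, 0, 0, 2, 0, 0, 0, 0],
   [0, 0, 0, 0, 0, 0, 0, 0, 0, 0, 0, 0, 0, 0, 0, 0, -2, 2, 0, 0, 0, -2, 0, 0, 2, 0],
   [0, 0, 0, 0, 0, 0, 0, 0, 0, 0, 0, 0, 0, 0, 0, 0, -2, 0, 1, -1, 1, -2, 1, -1, 2, 1],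
   [0, 0, 0, 0, 0, 0, 0, 0, 0, 0, 0, 0, 0, 0, 0, 0, 0, 0, 0, 0, 0, 2, 0, 0, 0, 0],
   [0, 0, 0, 0, 0, 0, 0, 0, 0, 0, 0, 0, 0, 0, 0, 0, 0, 0, 0, 0, 0, -2, 0, 0, 2, 0],
   [0, 0, 0, 0, 0, 0, 0, 0, 0, 0, 0, 0, 0, 0, 0, 0, 0, 0, 0, -1, 1, -2, 1, -1, 2, 1],
   [0, 0, 0, 0, 0, 0, 0, 0, 0, 0, 0, 0, 0, 0, 0, 0, 0, 0, 0, 0, 0, 0, 0, 1, 0, 0],
   [0, 0, 0, 0, 0, 0, 0, 0, 0, 0, 0, 0, 0, 0, 0, 0, 0, 0, 0, 0, 0, -2, 1, -1, 2, 1],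
   [0, 0, 0, 0, 0, 0, 0, 0, 0, 0, 0, 0, 0, 0, 0, 0, 0, 0, 0, 0, 0, 0, 0, 0, 0, 0],
   [0, 0, 0, 0, 0, 0, 0, 0, 0, 0, 0, 0, 0, 0, 0, 0, 0, 0, 0, 0, 0, 0, 0, -1, 2, 1],
   [0, 0, 0, 0, 0, 0, 0, 0, 0, 0, 0, 0, 0, 0, 0, 0, 0, 0, 0, 0, 0, 0, 0, 0, 0, 0],
   [0, 0, 0, 0, 0, 0, 0, 0, 0, 0, 0, 0, 0, 0, 0, 0, 0, 0, 0, 0, 0, 0, 0, 0, 0, 0],
   [0, 0, 0, 0, 0, 0, 0, 0, 0, 0, 0, 0, 0, 0, 0, 0, 0, 0, 0, 0, 0, 0, 0, 0, 0, 0]]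

def aH0 : TL :=
  [([1, 0, 0, 0, 0, 0, 0, 0, 0, 0, 0, 0, 0, 0, 0, 0, 0, 0, 0, 0, 0, 0, 0, 0, 0, 0], 0),
    ([0, 0, 0, 0, 1, 0, 0, 0, 0, 0, 0, 0, 0, 0, 0, 0, 0, 0, 0, 0, 0, 0, 0, 0, 0, 0], 0),
    ([0, 0, 0, 0, 0, 0, 1, 0, 0, 0, 0, 0, 0, 0, 0, 0, 0, 0, 0, 0, 0, 0, 0, 0, 0, 0], 0),
    ([0, 0, 0, 0, 0, 0, 0, 0, 0, 0, 0, 0, 1, 0, 0, 0, 0, 0, 0, 0, 0, 0, 0, 0, 0, 0], 0),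
    ([0, 0, 0, 0, 0, 0, 0, 0, 0, 0, 0, 0, 0, 0, 1, 0, 0, 0, 0, 0, 0, 0, 0, 0, 0, 0], 0),
    ([0, 0, 0, 0, 0, 0, 0, 0, 0, 0, 0, 0, 0, 0, 0, 0, 0, 1, 0, 0, 0, 0, 0, 0, 0, 0], 0)]

def aH1 : TL :=
  [([0, 0, 1, 0, 0, 0, 0, 0, 0, 0, 0, 0, 0, 0, 0, 0, 0, 0, 0, 0, 0, 0, 0, 0, 0, 0], 0),
    ([0, 0, 0, 0, 0, 0, 0, 1, 0, 0, 0, 0, 0, 0, 0, 0, 0, 0, 0, 0, 0, 0, 0, 0, 0, 0], 0),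
    ([0, 0, 0, 0, 0, 0, 0, 0, 0, 0, 1, 0, 0, 0, 0, 0, 0, 0, 0, 0, 0, 0, 0, 0, 0, 0], 0),
    ([0, 0, 0, 0, 0, 0, 0, 0, 0, 0, 0, 0, 0, 0, 0, 1, 0, 0, 0, 0, 0, 0, 0, 0, 0, 0], 0),
    ([0, 0, 0, 0, 0, 0, 0, 0, 0, 0, 0, 0, 0, 0, 0, 0, 0, 0, 1, 0, 0, 0, 0, 0, 0, 0], 0),
    ([0, 0, 0, 0, 0, 0, 0, 0, 0, 0, 0, 0, 0, 0, 0, 0, 0, 0, 0, 0, 1, 0, 0, 0, 0, 0], 0),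
    ([0, 0, 0, 0, 0, 0, 0, 0, 0, 0, 0, 0, 0, 0, 0, 0, 0, 0, 0, 0, 0, 0, 1, 0, 0, 0], 0)]

def aH : Fin 2 → TL := ![aH0, aH1]

def cH0 : TL :=
  [([-1, 0, 0, 0, 0, 0, 0, 0, 0, 0, 0, 0, 0, 0, 0, 0, 0, 0, 0, 0, 0, 0, 0, 0, 0, 0], 0)]

def cH1 : TL :=
  [([0, 1, 0, 0, 1, 0, -1, 0, 1, -1, -1, -1, 0, 0, 0, 0, 0, 0, 0, 0, 0, 0, 0, 0, 0, 0], -3),
    ([0, 1, 0, 1, 1, 0, -1, 1, 0, 0, -1, -1, 1, 0, -1, 0, -1, 0, -1, 0, 0, 0, 0, 0, 0, 0], -4),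
    ([0, 1, 0, 1, 1, 0, -1, 1, -1, 0, -2, 0, 1, -1, -1, 0, 0, 0, 0, 0, 0, 0, 0, 0, 0, 0], -4),
    ([0, 1, 0, 1, 1, 0, -1, 1, 0, 0, -1, -1, 1, 0, -1, -1, -1, 0, 0, 0, 0, 0, 0, 0, 0, 0], -5),
    ([0, 1, 0, 1, 1, 0, -1, 1, 0, 0, -2, -1, 1, -1, -1, 0, 0, 0, 0, 0, 0, 0, 0, 0, 0, 0], -5),
    ([0, 1, 0, 1, 1, 0, -1, 0, 0, -1, -1, -1, 0, 0, 0, 0, 0, 0, 0, 0, 0, 0, 0, 0, 0, 0], -3),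
    ([0, 1, 0, 1, 1, 0, -1, 0, -1, -1, -1, 0, 0, 0, 0, 0, 0, 0, 0, 0, 0, 0, 0, 0, 0, 0], -3),
    ([0, 1, 0, 1, 1, 0, -1, 0, -1, -1, -1, 0, 0, 0, 0, 0, 0, 0, 0, 0, 0, 0, 0, 0, 0, 0], -2),
    ([0, 1, 0, 1, 1, 0, -1, -1, -1, -1, 0, 0, 0, 0, 0, 0, 0, 0, 0, 0, 0, 0, 0, 0, 0, 0], -4),
    ([0, 1, 0, 0, 1, 0, -1, 0, 0, -1, -1, 0, 0, 0, 0, 0, 0, 0, 0, 0, 0, 0, 0, 0, 0, 0], -2),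
    ([0, 1, 0, 0, 1, 0, -1, -1, 0, -1, 0, 0, 0, 0, 0, 0, 0, 0, 0, 0, 0, 0, 0, 0, 0, 0], -3),
    ([0, 1, -1, 0, 1, -1, -1, 0, 0, 0, 0, 0, 0, 0, 0, 0, 0, 0, 0, 0, 0, 0, 0, 0, 0, 0], -2),
    ([0, 1, 0, 1, 1, 0, -1, 1, 0, 0, -1, -1, 1, -1, -1, -1, 0, 0, 0, 0, 0, 0, 0, 0, 0, 0], -3),
    ([0, 1, 0, 1, 1, 0, -1, 1, 0, -1, -2, -1, 0, 0, 0, 0, 0, 0, 0, 0, 0, 0, 0, 0, 0, 0], -3),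
    ([0, 1, 0, 1, 1, 0, -1, 1, -1, -1, -2, 0, 0, 0, 0, 0, 0, 0, 0, 0, 0, 0, 0, 0, 0, 0], -2),
    ([0, 1, 0, 1, 1, -1, -1, -1, -1, 0, 0, 0, 0, 0, 0, 0, 0, 0, 0, 0, 0, 0, 0, 0, 0, 0], -2),
    ([0, 1, 0, 0, 1, -1, -1, -1, 0, 0, 0, 0, 0, 0, 0, 0, 0, 0, 0, 0, 0, 0, 0, 0, 0, 0], -1),
    ([0, 0, -1, 0, 0, 0, 0, 0, 0, 0, 0, 0, 0, 0, 0, 0, 0, 0, 0, 0, 0, 0, 0, 0, 0, 0], 0),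
    ([0, 1, 0, 1, 1, 0, -1, 1, 0, 0, -1, -1, 0, -1, 0, -1, 0, 0, 0, 0, 0, 0, 0, 0, 0, 0], -3),
    ([0, 1, 0, 1, 1, 0, -1, 1, 0, 0, -2, -1, 0, -1, 0, 0, 0, 0, 0, 0, 0, 0, 0, 0, 0, 0], -5),
    ([0, 1, 0, 1, 1, 0, -1, 1, -1, 0, -2, 0, 0, -1, 0, 0, 0, 0, 0, 0, 0, 0, 0, 0, 0, 0], -4),
    ([0, 1, 0, 1, 0, -1, 0, -1, -1, 0, 0, 0, 0, 0, 0, 0, 0, 0, 0, 0, 0, 0, 0, 0, 0, 0], -2),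
    ([0, 1, 0, 0, 0, -1, 0, -1, 0, 0, 0, 0, 0, 0, 0, 0, 0, 0, 0, 0, 0, 0, 0, 0, 0, 0], -1),
    ([0, 1, -1, 0, 0, -1, 0, 0, 0, 0, 0, 0, 0, 0, 0, 0, 0, 0, 0, 0, 0, 0, 0, 0, 0, 0], -2)]

def cH : Fin 2 → TL := ![cH0, cH1]

def bH0 : TL :=
  [([0, 1, 0, 0, 0, 0, 0, 0, 0, 0, 0, 0, 0, 0, 0, 0, 0, 0, 0, 0, 0, 0, 0, 0, 1, 0], 0),
    ([0, 0, 0, 0, 0, 1, 0, 0, 0, 0, 0, 0, 0, 0, 0, 0, 0, 0, 0, 0, 0, 0, 0, 0, 1, 0], 0),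
    ([0, 0, 0, 0, 0, 0, 0, 0, 0, 1, 0, 0, 0, 0, 0, 0, 0, 0, 0, 0, 0, 0, 0, 0, 1, 0], 0),
    ([0, 0, 0, 0, 0, 0, 0, 0, 0, 0, 0, 0, 0, 1, 0, 0, 0, 0, 0, 0, 0, 0, 0, 0, 1, 0], 0),
    ([0, 0, 0, 0, 0, 0, 0, 0, 0, 0, 0, 0, 0, 0, 0, 0, 1, 0, 0, 0, 0, 0, 0, 0, 1, 0], 0),
    ([0, 0, 0, 0, 0, 0, 0, 0, 0, 0, 0, 0, 0, 0, 0, 0, 0, 0, 0, 0, 0, 1, 0, 0, 1, 0], 0)]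

def bH1 : TL :=
  [([0, 0, 0, 1, 0, 0, 0, 0, 0, 0, 0, 0, 0, 0, 0, 0, 0, 0, 0, 0, 0, 0, 0, 0, 0, 1], 0),
    ([0, 0, 0, 0, 0, 0, 0, 0, 1, 0, 0, 0, 0, 0, 0, 0, 0, 0, 0, 0, 0, 0, 0, 0, 0, 1], 0),
    ([0, 0, 0, 0, 0, 0, 0, 0, 0, 0, 0, 1, 0, 0, 0, 0, 0, 0, 0, 0, 0, 0, 0, 0, 0, 1], 0),
    ([0, 0, 0, 0, 0, 0, 0, 0, 0, 0, 0, 0, 0, 0, 0, 0, 0, 0, 0, 1, 0, 0, 0, 0, 0, 1], 0),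
    ([0, 0, 0, 0, 0, 0, 0, 0, 0, 0, 0, 0, 0, 0, 0, 0, 0, 0, 0, 0, 0, 0, 0, 1, 0, 1], 0)]

def bH : Fin 2 → TL := ![bH0, bH1]

def eH0 : TL :=
  [([1, -1, 0, 0, -1, 0, 0, 0, 0, 0, 0, 0, 0, 0, 0, 0, 0, 0, 0, 0, 0, 0, 0, 0, 0, 0], 0),
    ([0, -1, 0, 0, 0, 0, 0, 0, 0, 0, 0, 0, 0, 0, 0, 0, 0, 0, 0, 0, 0, 0, 0, 0, 0, 0], 0)]

def eH1 : TL :=
  [([0, 0, 1, -1, 0, 1, 1, 0, 1, 0, 1, 0, -1, 0, 1, -1, 0, -1, 1, 0, -1, -1, -1, -1, 0, 0], -5),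
    ([0, 0, 1, -1, 0, 1, 1, 0, 0, 0, 0, 1, -1, -1, 0, -1, 0, 0, 1, -1, -1, 0, 0, 0, 0, 0], -3),
    ([0, 0, 1, -1, 0, 1, 1, 0, 1, 0, 1, 0, -1, 0, 1, -1, 0, -1, 1, -1, -1, -1, -1, 0, 0, 0], -4),
    ([0, 0, 1, -1, 0, 1, 1, 0, 1, 0, 1, -1, -1, 0, 1, -2, -1, -1, 0, 0, 0, 0, 0, 0, 0, 0], -4),
    ([0, 0, 1, -1, 0, 1, 1, 0, 0, 0, 0, 0, -1, -1, 0, -1, 0, 0, 0, 0, 0, 0, 0, 0, 0, 0], -2),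
    ([0, 0, 1, -1, 0, 1, 1, 0, 1, 0, 1, 0, -1, 0, 1, -1, 0, -1, 0, -1, 0, -1, -1, 0, 0, 0], -4),
    ([0, 0, 1, -1, 0, 1, 1, 0, 1, 0, 1, 0, -1, 0, 1, -1, 0, -1, 0, -1, -1, -1, 0, 0, 0, 0], -5),
    ([0, 0, 1, -1, 0, 1, 1, 0, 1, 0, 1, 0, -1, 0, 1, -2, -1, -1, 1, -1, -1, 0, 0, 0, 0, 0], -5),
    ([0, 0, 1, -1, 0, 1, 1, 0, 1, 0, 1, 0, -1, 0, 1, -2, -1, -1, 0, -1, 0, 0, 0, 0, 0, 0], -5),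
    ([0, 0, 1, -1, 0, 1, 1, 0, 1, 0, 0, 0, -1, -1, 0, -1, 0, 0, 1, -1, -1, 0, 0, 0, 0, 0], -3),
    ([0, 0, 1, -1, 0, 1, 1, 0, 1, 0, 0, 0, -1, -1, 0, -1, 0, 0, 0, -1, 0, 0, 0, 0, 0, 0], -3),
    ([0, 0, 1, -1, 0, 1, 1, 0, 1, 0, 0, -1, -1, -1, 0, -1, 0, 0, 0, 0, 0, 0, 0, 0, 0, 0], -3),
    ([0, 0, 1, -1, 0, 1, 1, 0, 1, 0, 0, -1, -1, -1, 0, -1, 0, 0, 0, 0, 0, 0, 0, 0, 0, 0], -2),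
    ([0, 0, 1, -1, 0, 1, 1, 0, 1, 0, -1, -1, -1, -1, 0, 0, 0, 0, 0, 0, 0, 0, 0, 0, 0, 0], -4),
    ([0, 0, 1, -1, 0, 1, 1, 0, 0, 0, 0, 1, -1, -1, 0, -1, 0, 0, 0, -1, 0, 0, 0, 0, 0, 0], -3),
    ([0, 0, 1, -1, 0, 1, 1, 0, 0, 0, -1, 0, -1, -1, 0, 0, 0, 0, 0, 0, 0, 0, 0, 0, 0, 0], -3),
    ([0, 0, 1, -1, 0, 1, 1, -1, 0, -1, 0, 0, -1, 0, 0, 0, 0, 0, 0, 0, 0, 0, 0, 0, 0, 0], -2),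
    ([0, 0, 0, -1, 0, 0, 0, 0, 0, 0, 0, 0, 0, 0, 0, 0, 0, 0, 0, 0, 0, 0, 0, 0, 0, 0], 0),
    ([0, 0, 1, -1, 0, 1, 1, 0, 1, 0, 1, 0, -1, 0, 1, -1, -1, -1, 0, -1, -1, 0, 0, 0, 0, 0], -3),
    ([0, 0, 1, -1, 0, 1, 1, 0, 1, 0, 1, 0, -1, -1, 0, -2, 0, 0, 1, -1, -1, 0, 0, 0, 0, 0], -3),
    ([0, 0, 1, -1, 0, 1, 1, 0, 1, 0, 1, 0, -1, -1, 0, -2, 0, 0, 0, -1, 0, 0, 0, 0, 0, 0], -3),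
    ([0, 0, 1, -1, 0, 1, 1, 0, 1, 0, 1, -1, -1, -1, 0, -2, 0, 0, 0, 0, 0, 0, 0, 0, 0, 0], -2),
    ([0, 0, 1, -1, 0, 1, 1, 0, 1, -1, -1, -1, -1, 0, 0, 0, 0, 0, 0, 0, 0, 0, 0, 0, 0, 0], -2),
    ([0, 0, 1, -1, 0, 1, 1, 0, 0, -1, -1, 0, -1, 0, 0, 0, 0, 0, 0, 0, 0, 0, 0, 0, 0, 0], -1),
    ([0, 0, 1, -1, 0, 0, 0, -1, 0, 0, 0, 0, 0, 0, 0, 0, 0, 0, 0, 0, 0, 0, 0, 0, 0, 0], 0),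
    ([0, 0, 1, -1, 0, 1, 1, 0, 1, 0, 1, 0, -1, 0, 0, -1, -1, 0, 0, -1, -1, 0, 0, 0, 0, 0], -3),
    ([0, 0, 1, -1, 0, 1, 1, 0, 1, 0, 1, 0, -1, 0, 0, -2, -1, 0, 1, -1, -1, 0, 0, 0, 0, 0], -5),
    ([0, 0, 1, -1, 0, 1, 1, 0, 1, 0, 1, 0, -1, 0, 0, -2, -1, 0, 0, -1, 0, 0, 0, 0, 0, 0], -5),
    ([0, 0, 1, -1, 0, 1, 1, 0, 1, 0, 1, -1, -1, 0, 0, -2, -1, 0, 0, 0, 0, 0, 0, 0, 0, 0], -4),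
    ([0, 0, 1, -1, 0, 1, 0, 0, 1, -1, -1, -1, 0, 0, 0, 0, 0, 0, 0, 0, 0, 0, 0, 0, 0, 0], -2),
    ([0, 0, 1, -1, 0, 1, 0, 0, 0, -1, -1, 0, 0, 0, 0, 0, 0, 0, 0, 0, 0, 0, 0, 0, 0, 0], -1),
    ([0, 0, 1, -1, 0, 1, 0, -1, 0, -1, 0, 0, 0, 0, 0, 0, 0, 0, 0, 0, 0, 0, 0, 0, 0, 0], -2)]

def eH : Fin 2 → TL := ![eH0, eH1]

def rH0 : TL :=
  [([0, 0, 0, 0, 0, 0, 0, 0, 0, 0, 0, 0, 0, 0, 0, 0, 0, 0, 0, 0, 0, 0, 0, 0, 1, 0], 0)]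

def rH1 : TL :=
  [([0, 0, 0, 0, 0, 0, 0, 0, 0, 0, 0, 0, 0, 0, 0, 0, 0, 0, 0, 0, 0, 0, 0, 0, 0, 1], 0)]

def rH : Fin 2 → TL := ![rH0, rH1]

def sH0 : TL :=
  [([0, 0, 0, 0, 0, 0, 0, 0, 0, 0, 0, 0, 0, 0, 0, 0, 0, 0, 0, 0, 0, 0, 0, 0, -1, 0], 0)]

def sH1 : TL :=
  [([0, 0, 0, 0, 0, 0, 0, 0, 0, 0, 0, 0, 0, 0, 0, 0, 0, 0, 0, 0, 0, 0, 0, 0, 0, -1], 0)]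

def sH : Fin 2 → TL := ![sH0, sH1]

def oH : List ℤ := [0, 0, 0, 0, 0, 0, 0, 0, 0, 0, 0, 0, 0, 0, 0, 0, 0, 0, 0, 0, 0, 0, 0, 0, 0, 0]

def dH : Fin 2 → ℕ := ![2, 1]

def fH : Fin 2 → ℕ := ![2, 1]

def lH : Fin 2 → Fin 2 → ℤ := ![![-2, 0], ![-2, -1]]

theorem realH {K : Type*} [Field K] {q : K} (hq : Good q) (S : Subsemiring K) (hS : q ∈ S)
    (hd : ∀ j, Good (q ^ dH j)) (hd' : ∀ j, Good (q ^ fH j)) :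
    ∃ F : (Fin 2 → ℕ) → (Fin 2 → ℕ) → K, F 0 0 = 1 ∧
      (∀ x y, F x y = ∑ g ∈ Finset.Iic x, ∑ e ∈ Finset.Iic y,
        (∏ i, W2 (q ^ dH i) (x i) (g i)) * (∏ j, W2 (q ^ fH j) (y j) (e j)) *
          q ^ (∑ i, ∑ j, (g i : ℤ) * lH i j * e j) * F g e) ∧
      ∀ x y, ∃ D : ℕ, q ^ D * F x y ∈ S :=
  bos_core (C := CH) hq S hS dH fH hd hd' lH aH cH bH eH rH sH [(oH, 0)]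
    (vl_zero _ (by decide +kernel)) (by decide +kernel) (by decide +kernel) (by decide +kernel)
    (by decide +kernel) (by decide +kernel) (by decide +kernel) (by decide +kernel)

end Pool.Agent.FS.TodaBC
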