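import Pool.Agent.FS.TodaBC.Bos

set_option autoImplicit false

open Polynomial

namespace Pool.Agent.FS.TodaBC

open Pool.Agent.Lib.MP_4223bd_al

/-! From the recursion for traces to the numerators. -/

variable {K : Type*} [Field K] {q : K} {ι : Type} [Fintype ι] [DecidableEq ι]

def PK (q : K) (D : ι → ℕ) (a : ι → ℕ) : K := ∏ i, pq (q ^ D i) (a i)

omit [DecidableEq ι] in
lemma PK_zero (D : ι → ℕ) : PK q D 0 = 1 := by simp [PK, pq]

omit [DecidableEq ι] in
lemma PK_reg (hq : Good q) {D : ι → ℕ} (hD : ∀ i, 0 < D i) (a : ι → ℕ) :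
    PK q D a ∈ Reg q ∧ (PK q D a)⁻¹ ∈ Reg q := by
  refine ⟨prod_mem fun i _ => prod_mem fun j _ => by rw [← pow_mul]; exact reg_sub _, ?_⟩
  rw [PK, ← Finset.prod_inv_distrib]
  refine prod_mem fun i _ => ?_
  rw [pq, ← Finset.prod_inv_distrib]
  refine prod_mem fun j _ => ?_
  rw [← pow_mul, ← zpow_natCast]
  have := hD i
  exact reg_inv hq (by positivity)

lemma sol_eq (hq : Good q) {D : ι → ℕ} (hD : ∀ i, 0 < D i) {h : (ι → ℕ) → ℕ}
    (hpos : ∀ a, a ≠ 0 → 0 < h a) {J J' : (ι → ℕ) → K} (h0 : J 0 = 1) (h0' : J' 0 = 1)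
    (hJ : ∀ a, J a = ∑ c ∈ Finset.Iic a, q ^ h c / PK q D (a - c) * J c)
    (hJ' : ∀ a, J' a = ∑ c ∈ Finset.Iic a, q ^ h c / PK q D (a - c) * J' c) (a : ι → ℕ) :
    J a = J' a ∧ J a ∈ Reg q := by
  induction' hn : ∑ i, a i using Nat.strong_induction_on with n ih generalizing a
  by_cases ha : a = 0
  · rw [ha, h0, h0']; exact ⟨rfl, one_mem _⟩
  have lt : ∀ c ∈ Finset.Iio a, J c = J' c ∧ J c ∈ Reg q := fun c hc => by
    obtain ⟨h1, i, hi⟩ := Pi.lt_def.mp (Finset.mem_Iio.mp hc)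
    exact ih _ (hn ▸ Finset.sum_lt_sum (fun j _ => h1 j) ⟨i, Finset.mem_univ _, hi⟩) c rfl
  have e : ∑ c ∈ Finset.Iio a, q ^ h c / PK q D (a - c) * J c =
      ∑ c ∈ Finset.Iio a, q ^ h c / PK q D (a - c) * J' c :=
    Finset.sum_congr rfl fun c hc => by rw [(lt c hc).1]
  have f1 := hJ a
  have f2 := hJ' a
  rw [← Finset.Iio_insert, Finset.sum_insert (by simp), tsub_self, PK_zero] at f1 f2
  have hp : (0 : ℤ) < h a := by exact_mod_cast hpos a ha
  have hne := one_sub_ne hq hp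
  have hr := reg_inv hq hp
  rw [zpow_natCast] at hne hr
  refine ⟨mul_left_cancel₀ hne (by linear_combination f1 - f2 + e), ?_⟩
  have f3 : J a = (1 - q ^ h a)⁻¹ * ∑ c ∈ Finset.Iio a, q ^ h c / PK q D (a - c) * J c := by
    rw [eq_inv_mul_iff_mul_eq₀ hne]
    linear_combination f1
  rw [f3]
  refine mul_mem hr (sum_mem fun c hc => mul_mem ?_ (lt c hc).2)
  rw [div_eq_mul_inv, ← zpow_natCast]
  exact mul_mem (reg_zpow (by positivity)) (PK_reg hq hD _).2

lemma prod_W2v {n : ℕ} (D : Fin n → ℕ) (x g : Fin n → ℕ) : ∏ i, W2 (q ^ D i) (x i) (g i) =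
    q ^ (∑ i, D i * (g i * g i)) * PK q D x ^ 2 * (PK q D (x - g))⁻¹ * (PK q D g)⁻¹ ^ 2 := by
  simp only [W2, PK, Finset.prod_mul_distrib, Finset.prod_pow, Finset.prod_inv_distrib,
    ← Finset.prod_pow_eq_pow_sum, Pi.sub_apply, pow_mul]

theorem exc_core (hq : Good q) (hi : Function.Injective (ev q)) (φ : ℕ[X] →+* K) (hφ : φ X = q)
    {n n' : ℕ} (e : Fin n ⊕ Fin n' ≃ ι) (D : ι → ℕ) (hD : ∀ i, 0 < D i) (hg : ∀ i, Good (q ^ D i))
    (l : Fin n → Fin n' → ℤ) (h : (ι → ℕ) → ℕ) (hpos : ∀ a, a ≠ 0 → 0 < h a)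
    (hh : ∀ c, (h c : ℤ) = (∑ i, D (e (.inl i)) * (c (e (.inl i)) * c (e (.inl i))) : ℕ) +
      (∑ j, D (e (.inr j)) * (c (e (.inr j)) * c (e (.inr j))) : ℕ) +
      ∑ i, ∑ j, (c (e (.inl i)) : ℤ) * l i j * c (e (.inr j)))
    (F : (Fin n → ℕ) → (Fin n' → ℕ) → K) (F0 : F 0 0 = 1)
    (hF : ∀ x y, F x y = ∑ g ∈ Finset.Iic x, ∑ d ∈ Finset.Iic y,
      (∏ i, W2 (q ^ D (e (.inl i))) (x i) (g i)) * (∏ j, W2 (q ^ D (e (.inr j))) (y j) (d j)) *
        q ^ (∑ i, ∑ j, (g i : ℤ) * l i j * d j) * F g d)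
    (hS : ∀ x y, ∃ N : ℕ, q ^ N * F x y ∈ φ.rangeS) (J : (ι → ℕ) → K) (h0 : J 0 = 1)
    (hJ : ∀ a, J a = ∑ c ∈ Finset.Iic a, q ^ h c / PK q D (a - c) * J c) (a : ι → ℕ) :
    ∃ p, φ p = PK q D a ^ 2 * J a := by
  have ep : ∀ a : ι → ℕ, PK q D a = PK q (fun i => D (e (.inl i))) (fun i => a (e (.inl i))) *
      PK q (fun j => D (e (.inr j))) fun j => a (e (.inr j)) := fun a => by
    simp only [PK, ← Equiv.prod_comp e, Fintype.prod_sum_type]
  have ne : ∀ {κ : Type} [Fintype κ] (u : κ → ι) (x : κ → ℕ), PK q (fun i => D (u i)) x ≠ 0 :=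
    fun u x => Finset.prod_ne_zero_iff.mpr fun _ _ => pq_ne (hg _) _
  obtain ⟨h1, h2⟩ := sol_eq hq hD hpos (J' := fun a =>
    F (fun i => a (e (.inl i))) (fun j => a (e (.inr j))) / PK q D a ^ 2) h0
    (by beta_reduce; rw [PK_zero, one_pow, div_one]; exact F0) hJ (fun a => by
      beta_reduce
      rw [hF, ← Finset.sum_product', Finset.sum_div]
      symm
      refine Finset.sum_nbij' (fun c => (fun i => c (e (.inl i)), fun j => c (e (.inr j))))
        (fun p k => Sum.elim p.1 p.2 (e.symm k)) ?_ ?_ ?_ ?_ ?_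
      · intro c hc
        rw [Finset.mem_Iic] at hc
        exact Finset.mem_product.mpr
          ⟨Finset.mem_Iic.mpr fun i => hc _, Finset.mem_Iic.mpr fun i => hc _⟩
      · intro p hp
        obtain ⟨h1, h2⟩ := Finset.mem_product.mp hp
        rw [Finset.mem_Iic] at h1 h2 ⊢
        intro k
        obtain ⟨k, rfl⟩ := e.surjective k
        simp only [Equiv.symm_apply_apply]
        rcases k with i | j
        · exact h1 i
        · exact h2 j
      · intro c _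
        funext k
        obtain ⟨k, rfl⟩ := e.surjective k
        simp only [Equiv.symm_apply_apply]
        cases k <;> rfl
      · intro p _
        simp
      · intro c _
        rw [prod_W2v, prod_W2v, ep, ep c, ep a, ← zpow_natCast q (h c), hh, zpow_add₀ hq.1,
          zpow_add₀ hq.1, zpow_natCast, zpow_natCast]
        have h1 := ne (fun i => e (.inl i)) fun i => a (e (.inl i))
        have h2 := ne (fun i => e (.inr i)) fun i => a (e (.inr i))
        have h3 := ne (fun i => e (.inl i)) fun i => c (e (.inl i))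
        have h4 := ne (fun i => e (.inr i)) fun i => c (e (.inr i))
        have h5 := ne (fun i => e (.inl i)) fun i => (a - c) (e (.inl i))
        have h6 := ne (fun i => e (.inr i)) fun i => (a - c) (e (.inr i))
        change _ = _ * _ * (PK q _ fun i => (a - c) (e (.inl i)))⁻¹ * _ *
          (_ * _ * (PK q _ fun i => (a - c) (e (.inr i)))⁻¹ * _) * _ * _ / _
        field_simp) a
  have hr := mul_mem (pow_mem (PK_reg hq hD a).1 2) h2
  obtain ⟨N, p, hp⟩ := hS (fun i => a (e (.inl i))) (fun j => a (e (.inr j)))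
  have h3 : PK q D a ^ 2 * J a = F (fun i => a (e (.inl i))) (fun j => a (e (.inr j))) := by
    rw [h1, mul_div_cancel₀ _ (pow_ne_zero 2 (show PK q D a ≠ 0 from ne id a))]
  rw [← h3] at hp
  obtain ⟨A, E, g2, g3⟩ := hr
  have hev : (ev q).comp (mapRingHom (Nat.castRingHom ℤ)) = φ :=
    Polynomial.ringHom_ext' (Subsingleton.elim _ _) (by simp [hφ])
  have hev' : ∀ r : ℕ[X], ev q (r.map (Nat.castRingHom ℤ)) = φ r := fun r => RingHom.congr_fun hev r
  have h4 : E * p.map (Nat.castRingHom ℤ) = X ^ N * A :=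
    hi (by rw [map_mul, map_mul, map_pow, ev_X, hev', hp, ← g3]; ring)
  have h5 : X ^ N ∣ p.map (Nat.castRingHom ℤ) :=
    prime_X.pow_dvd_of_dvd_mul_left N (by rw [X_dvd_iff, g2]; exact one_ne_zero) ⟨A, h4⟩
  have h6 : X ^ N ∣ p := by
    rw [X_pow_dvd_iff] at h5 ⊢
    intro k hk
    simpa using h5 k hk
  obtain ⟨r, rfl⟩ := h6
  refine ⟨r, mul_left_cancel₀ (pow_ne_zero N hq.1) ?_⟩
  rw [← hp, map_mul, map_pow, hφ]

end Pool.Agent.FS.TodaBC
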