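import Mathlib
import Pool.Agent.Lib.MP_4223bd_al.Fix

set_option autoImplicit false

namespace Pool.Agent.FS.TodaBC

open Pool.Agent.Lib.MP_4223bd_al

/-! The identity at the double bond, for the types `B` and `C`. -/

variable {K : Type*} [Field K] {q : K}

/-- The kernel at the end vertex. -/
def EF (s p : K) (r n : ℤ) : K := pz p (r * n) * io s n ^ 2

def tL (q s p : K) (α β r a b c x : ℤ) : K :=
  q ^ (α * (x * x) - β * (c * (r * x))) * EF s p r (x - b) * io s (a - x) * io p (r * x - c) *
    io p (c - r * b)

lemma EF_neg {s p : K} {r n : ℤ} (h : n < 0) : EF s p r n = 0 := by simp [EF, io_neg h]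

lemma tL_ne {s p : K} {α β r a b c x : ℤ} (h : tL q s p α β r a b c x ≠ 0) : b ≤ x ∧ x ≤ a := by
  constructor
  · by_contra h1
    exact h (by rw [tL, EF_neg (by omega)]; simp)
  · by_contra h1
    exact h (by rw [tL, io_neg (n := a - x) (by omega)]; simp)

lemma shift {lo hi : ℤ} (G : ℤ → K) (h : ∀ x, G x ≠ 0 → lo < x ∧ x ≤ hi) :
    ∑ x ∈ Finset.Icc lo hi, (G (x + 1) - G x) = 0 := by
  rw [Finset.sum_sub_distrib, sub_eq_zero]
  refine Finset.sum_bij_ne_zero (fun x _ _ => x + 1) ?_ ?_ ?_ ?_
  · intro x _ hx
    have := h _ hx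
    rw [Finset.mem_Icc]; omega
  · intro a _ _ b _ _ e
    omega
  · intro x _ hx
    have := h _ hx
    exact ⟨x - 1, Finset.mem_Icc.mpr (by omega), by simpa using hx, by simp⟩
  · intro x _ _
    rfl

def Step (q s p : K) (α β r : ℤ) : Prop :=
  ∀ a b c : ℤ, ∃ G : ℤ → K, (∀ x, G x ≠ 0 → b < x ∧ x ≤ a) ∧ ∀ x,
    (1 - q ^ (r * a - c) * q ^ (c - r * b)) * (q ^ (c - r * b) - q ^ (r * a - c)) *
      tL q s p α β r a b c x - q ^ (c - r * b) * tL q s p α β r (a - 1) b c x +
      q ^ (r * a - c) * tL q s p α β r a (b + 1) c x = G (x + 1) - G x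

lemma step_sum {s p : K} {α β r : ℤ} (h : Step q s p α β r) {lo hi a b : ℤ} (c : ℤ) (h1 : lo ≤ b)
    (h2 : a ≤ hi) :
    (1 - q ^ (r * a - c) * q ^ (c - r * b)) * (q ^ (c - r * b) - q ^ (r * a - c)) *
      ∑ x ∈ Finset.Icc lo hi, tL q s p α β r a b c x =
      q ^ (c - r * b) * ∑ x ∈ Finset.Icc lo hi, tL q s p α β r (a - 1) b c x -
      q ^ (r * a - c) * ∑ x ∈ Finset.Icc lo hi, tL q s p α β r a (b + 1) c x := by
  obtain ⟨G, g1, g2⟩ := h a b c
  have := shift (lo := lo) (hi := hi) G fun x hx => by have := g1 x hx; omega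
  rw [← Finset.sum_congr rfl fun x _ => g2 x, Finset.sum_add_distrib, Finset.sum_sub_distrib,
    ← Finset.mul_sum, ← Finset.mul_sum, ← Finset.mul_sum] at this
  linear_combination this

lemma zpow_ne (hq : Good q) {m n : ℤ} (h : m ≠ n) : q ^ m - q ^ n ≠ 0 := by
  have key : ∀ m n : ℤ, m < n → q ^ m - q ^ n ≠ 0 := by
    intro m n h
    have h1 := one_sub_ne hq (n := n - m) (by omega)
    rw [zp hq (show n = m + (n - m) by ring), ← mul_one_sub]
    exact mul_ne_zero (zpow_ne_zero _ hq.1) h1
  rcases lt_or_gt_of_ne h with h | h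
  · exact key _ _ h
  · intro e
    exact key _ _ h (by linear_combination -e)

theorem fork {s p : K} {α β r : ℤ} (hq : Good q) (hr : 0 < r) (hα : 2 * α = β * (r * r))
    (h : Step q s p α β r) (lo hi c : ℤ) (n : ℕ) : ∀ a b : ℤ, a - b < n → lo ≤ b → a ≤ hi →
    ∑ x ∈ Finset.Icc lo hi, tL q s p α β r a b c x =
      ∑ x ∈ Finset.Icc (-hi) (-lo), tL q s p α β r (-b) (-a) (-c) x := by
  induction n with
  | zero =>
    intro a b h0 _ _
    rw [Finset.sum_eq_zero, Finset.sum_eq_zero]
    · intro x _
      by_contra hx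
      have := tL_ne hx
      omega
    · intro x _
      by_contra hx
      have := tL_ne hx
      omega
  | succ n ih =>
    intro a b h0 h1 h2
    by_cases hc : r * a - c = c - r * b
    · refine Finset.sum_bij_ne_zero (fun x _ _ => x - (a + b)) ?_ ?_ ?_ ?_
      rotate_left 3
      · intro x _ _
        have e1 : α * (x * x) - β * (c * (r * x)) =
            α * ((x - (a + b)) * (x - (a + b))) - β * (-c * (r * (x - (a + b)))) := by
          have : 2 * (α * (x * x) - β * (c * (r * x))) = 2 *
            (α * ((x - (a + b)) * (x - (a + b))) - β * (-c * (r * (x - (a + b))))) := by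
            linear_combination ((a + b) * (2 * x - (a + b))) * hα +
              (β * r * (2 * x - (a + b))) * hc
          omega
        rw [tL, tL, ← e1, show x - (a + b) - -a = x - b by ring,
          show -b - (x - (a + b)) = a - x by ring,
          show r * (x - (a + b)) - -c = r * x - c by linear_combination -hc,
          show -c - r * -a = c - r * b by linear_combination hc]
      · intro x _ hx
        have := tL_ne hx
        rw [Finset.mem_Icc]; omega
      · intro x _ _ y _ _ e
        omega
      · intro y _ hy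
        have h3 := tL_ne hy
        have e1 : α * ((y + (a + b)) * (y + (a + b))) - β * (c * (r * (y + (a + b)))) =
            α * (y * y) - β * (-c * (r * y)) := by
          have : 2 * (α * ((y + (a + b)) * (y + (a + b))) - β * (c * (r * (y + (a + b))))) =
            2 * (α * (y * y) - β * (-c * (r * y))) := by
            linear_combination ((a + b) * (2 * y + (a + b))) * hα +
              (β * r * (2 * y + (a + b))) * hc
          omega
        refine ⟨y + (a + b), Finset.mem_Icc.mpr (by omega), ?_, by simp⟩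
        rw [tL, e1, show y + (a + b) - b = y - -a by ring, show a - (y + (a + b)) = -b - y by ring,
          show r * (y + (a + b)) - c = r * y - -c by linear_combination hc,
          show c - r * b = -c - r * -a by linear_combination -hc]
        exact hy
    rcases lt_trichotomy a b with hab | hab | hab
    · rw [Finset.sum_eq_zero, Finset.sum_eq_zero]
      · intro x _
        by_contra hx
        have := tL_ne hx
        omega
      · intro x _
        by_contra hx
        have := tL_ne hx
        omega
    · subst hab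
      have z : io p (r * a - c) * io p (c - r * a) = 0 := by
        rcases lt_or_gt_of_ne hc with h | h
        · rw [io_neg (n := r * a - c) (by omega), zero_mul]
        · rw [io_neg (n := c - r * a) (by omega), mul_zero]
      rw [Finset.sum_eq_zero, Finset.sum_eq_zero]
      · intro x _
        by_contra hx
        have h3 := tL_ne hx
        obtain rfl : x = -a := by omega
        apply hx
        rw [tL, mul_assoc, show r * -a - -c = c - r * a by ring,
          show -c - r * -a = r * a - c by ring, mul_comm (io p (c - r * a)), z, mul_zero]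
      · intro x _
        by_contra hx
        have h3 := tL_ne hx
        obtain rfl : x = a := by omega
        apply hx
        rw [tL, mul_assoc, z, mul_zero]
    · have s1 := step_sum h c h1 h2
      have s2 := step_sum h (lo := -hi) (hi := -lo) (a := -b) (b := -a) (-c) (by omega) (by omega)
      rw [ih (a - 1) b (by omega) h1 (by omega), ih a (b + 1) (by omega) (by omega) h2] at s1
      rw [show r * -b - -c = c - r * b by ring, show -c - r * -a = r * a - c by ring,
        show -b - 1 = -(b + 1) by ring, show -a + 1 = -(a - 1) by ring] at s2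
      have n1 : 1 - q ^ (r * a - c) * q ^ (c - r * b) ≠ 0 := by
        rw [← zpow_add₀ hq.1]
        exact one_sub_ne hq (by nlinarith)
      apply mul_left_cancel₀ (mul_ne_zero n1 (zpow_ne hq (Ne.symm hc)))
      linear_combination s1 + s2

lemma good_sq (hq : Good q) : Good (q ^ 2) :=
  ⟨pow_ne_zero _ hq.1, fun k => by
    rw [← pow_mul, show 2 * (k + 1) = (2 * k + 1) + 1 by ring]; exact hq.2 _⟩

lemma sq_zp (_hq : Good q) (n : ℤ) : (q ^ 2) ^ n = q ^ n * q ^ n := by
  rw [sq, mul_zpow]

lemma EF_B (hq : Good q) (k : ℤ) :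
    (1 - q ^ k) * EF q (q ^ 2) 1 k = (1 + q ^ k) * EF q (q ^ 2) 1 (k - 1) := by
  rcases lt_trichotomy k 0 with h | h | h
  · rw [EF_neg h, EF_neg (by omega)]; simp
  · subst h; rw [EF_neg (n := 0 - 1) (by omega)]; simp
  · rw [EF, EF, one_mul, one_mul, pz_step h, io_step hq, sq_zp hq]; ring

lemma EF_C (hq : Good q) (k : ℤ) :
    (1 - q ^ k * q ^ k) * EF (q ^ 2) q 2 k =
      (1 - q ^ k * q ^ k * q⁻¹) * EF (q ^ 2) q 2 (k - 1) := by
  rcases lt_trichotomy k 0 with h | h | h
  · rw [EF_neg h, EF_neg (by omega)]; simp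
  · subst h; rw [EF_neg (n := 0 - 1) (by omega)]; simp
  · rw [EF, EF, pz_step (n := 2 * k) (by omega), pz_step (n := 2 * k - 1) (by omega),
      io_step (good_sq hq), sq_zp hq, show 2 * k - 1 - 1 = 2 * (k - 1) by ring,
      zpow_sub_one₀ hq.1, zp hq (two_mul k)]
    ring

lemma step_B (hq : Good q) : Step q q (q ^ 2) 1 2 1 := by
  intro a b c
  refine ⟨fun x => -(q ^ (1 * a - c) * q ^ (c - 1 * b) * q ^ (x * x - 2 * c * x + c - x) *
    EF q (q ^ 2) 1 (x - b - 1) * io q (a - x) * io (q ^ 2) (x - c - 1) * io (q ^ 2) (c - b)), ?_, ?_⟩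
  · intro x hx
    constructor
    · by_contra h1
      exact hx (by beta_reduce; rw [EF_neg (by omega)]; simp)
    · by_contra h1
      exact hx (by beta_reduce; rw [io_neg (n := a - x) (by omega)]; simp)
  · intro x
    have h0 := hq.1
    have e := EF_B hq (x - b)
    simp only [tL, one_mul]
    rw [show a - 1 - x = a - x - 1 by ring, show x - (b + 1) = x - b - 1 by ring,
      show c - (b + 1) = c - b - 1 by ring, show x + 1 - b - 1 = x - b by ring,
      show a - (x + 1) = a - x - 1 by ring, show x + 1 - c - 1 = x - c by ring,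
      io_step hq (a - x), io_step (good_sq hq) (c - b), io_step (good_sq hq) (x - c),
      sq_zp hq, sq_zp hq,
      zp hq (show (x + 1) * (x + 1) - 2 * c * (x + 1) + c - (x + 1) =
        (x * x - 2 * (c * x)) + (x - c) by ring),
      zp hq (show x * x - 2 * c * x + c - x = (x * x - 2 * (c * x)) + -(x - c) by ring),
      zp hq (show a - x = (a - c) + -(x - c) by ring), zpow_neg]
    rw [zp hq (show x - b = (c - b) + (x - c) by ring)] at e
    have hz : q ^ (x - c) ≠ 0 := zpow_ne_zero _ h0
    generalize q ^ (x - c) = z at *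
    generalize q ^ (c - b) = M at *
    generalize q ^ (a - c) = N at *
    generalize q ^ (x * x - 2 * (c * x)) = y at *
    linear_combination (norm := (field_simp; ring)) (y * io q (a - x) * io (q ^ 2) (x - c) *
      io (q ^ 2) (c - b) * N * (M - z) * z⁻¹) * e

lemma step_C (hq : Good q) : Step q (q ^ 2) q 2 1 2 := by
  intro a b c
  refine ⟨fun x => -(q ^ (2 * a - c) * q ^ (c - 2 * b) * q ^ (2 * (x * x) - c * (2 * x) - (2 * x - c)) *
    EF (q ^ 2) q 2 (x - b - 1) * io (q ^ 2) (a - x) * io q (2 * x - c - 1 - 1) * io q (c - 2 * b)),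
    ?_, ?_⟩
  · intro x hx
    constructor
    · by_contra h1
      exact hx (by beta_reduce; rw [EF_neg (by omega)]; simp)
    · by_contra h1
      exact hx (by beta_reduce; rw [io_neg (n := a - x) (by omega)]; simp)
  · intro x
    have h0 := hq.1
    have e := EF_C hq (x - b)
    simp only [tL, one_mul]
    rw [show a - 1 - x = a - x - 1 by ring, show x - (b + 1) = x - b - 1 by ring,
      show c - 2 * (b + 1) = c - 2 * b - 1 - 1 by ring, show x + 1 - b - 1 = x - b by ring,
      show a - (x + 1) = a - x - 1 by ring, show 2 * (x + 1) - c - 1 - 1 = 2 * x - c by ring,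
      io_step (good_sq hq) (a - x), io_step hq (c - 2 * b - 1), io_step hq (c - 2 * b),
      io_step hq (2 * x - c - 1), io_step hq (2 * x - c), sq_zp hq,
      zp hq (show 2 * ((x + 1) * (x + 1)) - c * (2 * (x + 1)) - (2 * (x + 1) - c) =
        (2 * (x * x) - c * (2 * x)) + (2 * x - c) by ring),
      zp hq (show 2 * (x * x) - c * (2 * x) - (2 * x - c) =
        (2 * (x * x) - c * (2 * x)) + -(2 * x - c) by ring),
      zp2 hq (show a - x + (a - x) = (2 * a - c) + -(2 * x - c) by ring), zpow_neg,
      zpow_sub_one₀ h0, zpow_sub_one₀ h0]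
    rw [zp2 hq (show x - b + (x - b) = (c - 2 * b) + (2 * x - c) by ring)] at e
    have hz : q ^ (2 * x - c) ≠ 0 := zpow_ne_zero _ h0
    generalize q ^ (2 * x - c) = z at *
    generalize q ^ (c - 2 * b) = M at *
    generalize q ^ (2 * a - c) = N at *
    generalize q ^ (2 * (x * x) - c * (2 * x)) = y at *
    linear_combination (norm := (field_simp; ring)) (y * io (q ^ 2) (a - x) * io q (2 * x - c) *
      io q (c - 2 * b) * N * (M * z⁻¹ - 1)) * e

end Pool.Agent.FS.TodaBC
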