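import Pool.Agent.FS.TodaBC.Form

set_option autoImplicit false

namespace Pool.Agent.FS.TodaBC

open Pool.Agent.Lib.MP_4223bd_al

/-! The recursion in the rank for the numerators in types `B` and `C`. -/

variable {K : Type*} [Field K] {q s p : K} {m : ℕ} {α β r : ℤ}

def cz (a : Fin (m + 1) → ℕ) : Fin (m + 1) → ℤ := fun i => a i

def PZ (s p : K) (a : Fin (m + 1) → ℕ) : K := pq s (a 0) * ∏ j : Fin m, pq p (a j.succ)

def SolZ (q s p : K) (α β r : ℤ) (J : (Fin (m + 1) → ℕ) → K) : Prop :=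
  J 0 = 1 ∧ ∀ a, J a = ∑ c ∈ Finset.Iic a, q ^ HV α β r (cz c) / PZ s p (a - c) * J c

lemma box_Iic (a : Fin (m + 1) → ℕ) (N : ℤ) (hN : ∀ i, (a i : ℤ) ≤ N) (F : (Fin (m + 1) → ℤ) → K)
    (hF : ∀ w, F w ≠ 0 → ∀ i, w i ≤ a i) :
    ∑ c ∈ Finset.Iic a, F (cz c) = ∑ w ∈ box _ N, F w := by
  refine Finset.sum_of_injOn cz ?_ ?_ ?_ fun _ _ => rfl
  · intro c _ d _ h
    funext i
    exact Int.ofNat_inj.mp (congrFun h i)
  · intro c hc
    refine mem_box.mpr fun i => ⟨Int.natCast_nonneg _, le_trans ?_ (hN i)⟩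
    exact Int.ofNat_le.mpr (Finset.mem_Iic.mp hc i)
  · intro w hw hnot
    by_contra h
    apply hnot
    have hw' := mem_box.mp hw
    refine ⟨fun i => (w i).toNat, ?_, ?_⟩
    · simp only [Finset.coe_Iic, Set.mem_Iic]
      intro i
      have := hF w h i
      show (w i).toNat ≤ a i
      omega
    · funext i
      exact Int.toNat_of_nonneg (hw' i).1

lemma dW_cz {a c : Fin (m + 1) → ℕ} (h : c ≤ a) : dW s p (cz a) (cz c) = (PZ s p (a - c))⁻¹ := by
  rw [PZ, dW, mul_inv, ← Finset.prod_inv_distrib]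
  congr 1
  · exact io_sub (h _)
  · exact Finset.prod_congr rfl fun j _ => io_sub (h _)

theorem fixN (hq : Good q) (hr : 0 < r) (hβ : 0 < β) (hα : 2 * α = β * (r * r))
    (hs : s = q ^ α) (hp' : p = q ^ β) (hsg : Good s) (hp : Good p) (hF : Fk s p r)
    {J : (Fin (m + 1) → ℕ) → K} (hJ : SolZ q s p α β r J) (a : Fin (m + 1) → ℕ) :
    PZ s p a ^ 2 * J a = ∑ c ∈ Finset.Iic a,
      if ta r (cz c 0) (Fin.tail (cz c)) (Fin.last m) = 0 then q ^ HV α β r (cz c) *
        Rk s p r (cz a 0) (Fin.tail (cz a)) (cz c 0) (Fin.tail (cz c)) * (PZ s p c ^ 2 * J c)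
      else 0 := by
  set N : ℤ := ∑ i, (a i : ℤ) with hN
  have hle : ∀ i, (a i : ℤ) ≤ N := fun i =>
    Finset.single_le_sum (f := fun i => (a i : ℤ)) (fun _ _ => by positivity) (Finset.mem_univ i)
  have e0 : ∀ c : Fin (m + 1) → ℕ, (fun i => (cz c i).toNat) = c := fun c => rfl
  have h := fixedW hq hr hβ hα hs hp' hp hF N (by positivity) (fun v => J fun i => (v i).toNat) hJ.1
    (fun v hv => by
      have hv' := mem_box.mp hv
      have e : cz (fun i => (v i).toNat) = v := funext fun i => Int.toNat_of_nonneg (hv' i).1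
      rw [hJ.2, ← box_Iic (fun i => (v i).toNat) N (fun i => by have := hv' i; omega) _
        (fun w hw i => by
          have := dW_ne (right_ne_zero_of_mul (left_ne_zero_of_mul hw)) i
          omega)]
      refine Finset.sum_congr rfl fun c hc => ?_
      have := dW_cz (s := s) (p := p) (Finset.mem_Iic.mp hc)
      rw [e] at this
      rw [this, e0, div_eq_mul_inv])
    (cz a) (mem_box.mpr fun i => ⟨Int.natCast_nonneg _, hle i⟩)
  rw [← box_Iic a N hle (fun u => q ^ HV α β r u * kW s p r (cz a) u * J fun i => (u i).toNat)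
    (fun w hw i => (kW_ne (right_ne_zero_of_mul (left_ne_zero_of_mul hw))).1 i)] at h
  simp only [e0] at h
  rw [h, Finset.mul_sum]
  refine Finset.sum_congr rfl fun c _ => ?_
  split_ifs with hl
  · have h6 := Rk_ev hsg hp hr (cz a 0) (Fin.tail (cz a)) (cz c 0) (Fin.tail (cz c)) hl
      (Int.natCast_nonneg _) (fun _ => Int.natCast_nonneg _)
    change PZ s p a ^ 2 * kW s p r (cz a) (cz c) = _ * PZ s p c ^ 2 at h6
    linear_combination (q ^ HV α β r (cz c) * J c) * h6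
  · have : kW s p r (cz a) (cz c) = 0 := by
      by_contra hk
      exact hl (le_antisymm (kW_ne hk).2.2
        (Fin.cases (motive := fun i => 0 ≤ ta r (cz c 0) (Fin.tail (cz c)) i)
          (mul_nonneg hr.le (Int.natCast_nonneg _)) (fun j => Int.natCast_nonneg _) _))
    simp [this]

def sn (b : Fin (m + 1) → ℕ) : Fin (m + 2) → ℕ := Fin.snoc (α := fun _ => ℕ) b 0

lemma sn_cast (b : Fin (m + 1) → ℕ) (j : Fin (m + 1)) : sn b j.castSucc = b j := by simp [sn]

lemma sn_last (b : Fin (m + 1) → ℕ) : sn b (Fin.last _) = 0 := by simp [sn]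

lemma sum_sn (a : Fin (m + 2) → ℕ) (F : (Fin (m + 2) → ℕ) → K) :
    ∑ c ∈ Finset.Iic a, (if c (Fin.last _) = 0 then F c else 0) =
      ∑ b ∈ Finset.Iic (Fin.init a), F (sn b) := by
  rw [← Finset.sum_filter]
  refine Finset.sum_nbij' (fun c => Fin.init c) sn ?_ ?_ ?_ ?_ ?_
  · intro c hc
    exact Finset.mem_Iic.mpr fun i => Finset.mem_Iic.mp (Finset.mem_filter.mp hc).1 _
  · intro b hb
    refine Finset.mem_filter.mpr ⟨Finset.mem_Iic.mpr fun i => ?_, sn_last b⟩
    refine Fin.lastCases ?_ (fun j => ?_) i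
    · rw [sn_last]; exact Nat.zero_le _
    · rw [sn_cast]; exact Finset.mem_Iic.mp hb j
  · intro c hc
    funext i
    refine Fin.lastCases ?_ (fun j => ?_) i
    · rw [sn_last, (Finset.mem_filter.mp hc).2]
    · rw [sn_cast]; rfl
  · intro b _
    funext j
    exact sn_cast b j
  · intro c hc
    congr 1
    funext i
    refine Fin.lastCases ?_ (fun j => ?_) i
    · rw [sn_last, (Finset.mem_filter.mp hc).2]
    · rw [sn_cast]; rfl

lemma sn_zero (b : Fin (m + 1) → ℕ) : sn b 0 = b 0 := sn_cast b 0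

lemma sn_succ (b : Fin (m + 1) → ℕ) (j : Fin m) : sn b j.castSucc.succ = b j.succ :=
  sn_cast b j.succ

lemma PZ_sn (b : Fin (m + 1) → ℕ) : PZ s p (sn b) = PZ s p b := by
  have h : sn b (Fin.last m).succ = 0 := sn_last b
  rw [PZ, PZ, Fin.prod_univ_castSucc, sn_zero, h]
  simp [sn_succ, pq]

lemma HV_sn (b : Fin (m + 1) → ℕ) : HV α β r (cz (sn b)) = HV α β r (cz b) := by
  have h : Fin.tail (cz (sn b)) (Fin.last m) = 0 := congrArg Nat.cast (sn_last b)
  have h0 : cz (sn b) 0 = cz b 0 := congrArg Nat.cast (sn_zero b)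
  have h1 : ∀ j : Fin m, Fin.tail (cz (sn b)) j.castSucc = Fin.tail (cz b) j := fun j =>
    congrArg Nat.cast (sn_succ b j)
  have h2 : ∀ i : Fin (m + 1), ta r (cz b 0) (Fin.tail (cz (sn b))) i.castSucc =
      ta r (cz b 0) (Fin.tail (cz b)) i := fun i => Fin.cases rfl (fun j => h1 j) i
  rw [HV, HV, hC, hC, Fin.sum_univ_castSucc, h, h0]
  simp only [h1, h2]
  ring

lemma SolZ.res {J : (Fin (m + 2) → ℕ) → K} (hJ : SolZ q s p α β r J) :
    SolZ q s p α β r fun b => J (sn b) := by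
  have z : sn (0 : Fin (m + 1) → ℕ) = 0 := by
    funext i
    exact Fin.lastCases (sn_last _) (fun j => sn_cast _ j) i
  refine ⟨by beta_reduce; rw [z, hJ.1], fun b => ?_⟩
  have h := sum_sn (sn b) fun c => q ^ HV α β r (cz c) / PZ s p (sn b - c) * J c
  have e : Fin.init (sn b) = b := funext fun j => sn_cast b j
  rw [e, Finset.sum_congr rfl fun c hc => if_pos (Nat.le_zero.mp
    ((Finset.mem_Iic.mp hc (Fin.last _)).trans (sn_last b).le))] at h
  beta_reduce
  rw [hJ.2, h]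
  refine Finset.sum_congr rfl fun c _ => ?_
  have e2 : sn b - sn c = sn (b - c) := by
    funext i
    refine Fin.lastCases ?_ (fun j => ?_) i
    · simp only [Pi.sub_apply, sn_last]
    · simp only [Pi.sub_apply, sn_cast]
  rw [e2, PZ_sn, HV_sn]

theorem giv_step (hq : Good q) (hr : 0 < r) (hβ : 0 < β) (hα : 2 * α = β * (r * r))
    (hs : s = q ^ α) (hp' : p = q ^ β) (hsg : Good s) (hp : Good p) (hF : Fk s p r)
    {J : (Fin (m + 2) → ℕ) → K} (hJ : SolZ q s p α β r J) (a : Fin (m + 2) → ℕ) :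
    PZ s p a ^ 2 * J a = ∑ b ∈ Finset.Iic (Fin.init a), q ^ HV α β r (cz b) *
      Rk s p r (cz a 0) (Fin.tail (cz a)) (cz (sn b) 0) (Fin.tail (cz (sn b))) *
        (PZ s p b ^ 2 * J (sn b)) := by
  rw [fixN hq hr hβ hα hs hp' hsg hp hF hJ a]
  have h := sum_sn a fun c => q ^ HV α β r (cz c) *
    Rk s p r (cz a 0) (Fin.tail (cz a)) (cz c 0) (Fin.tail (cz c)) * (PZ s p c ^ 2 * J c)
  simp only [PZ_sn, HV_sn] at h
  rw [← h]
  refine Finset.sum_congr rfl fun c _ => if_congr ?_ rfl rfl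
  exact Int.natCast_eq_zero

theorem giv_base (hq : Good q) (hr : 0 < r) (hβ : 0 < β) (hα : 2 * α = β * (r * r))
    (hs : s = q ^ α) (hp' : p = q ^ β) (hsg : Good s) (hp : Good p) (hF : Fk s p r)
    {J : (Fin 1 → ℕ) → K} (hJ : SolZ q s p α β r J) (a : Fin 1 → ℕ) :
    PZ s p a ^ 2 * J a = 1 := by
  rw [fixN hq hr hβ hα hs hp' hsg hp hF hJ a, Finset.sum_eq_single_of_mem 0 (by simp)]
  · have z : cz (0 : Fin 1 → ℕ) = 0 := rfl
    have h1 := pz_mul_io hsg (n := cz a 0) (Int.natCast_nonneg _)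
    rw [if_pos (show ta r (cz 0 0) (Fin.tail (cz 0)) (Fin.last 0) = 0 from mul_zero r), z, HV_zero,
      hJ.1]
    simp [Rk, PZ, pq, ev_gb hsg, h1]
  · intro c _ hc
    refine if_neg fun h => hc ?_
    funext i
    obtain rfl : i = 0 := Fin.ext (by have := i.2; omega)
    exact Int.natCast_eq_zero.mp ((mul_eq_zero.mp h).resolve_left hr.ne')

end Pool.Agent.FS.TodaBC
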