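import Pool.Agent.FS.TodaBC.Fork

set_option autoImplicit false

namespace Pool.Agent.FS.TodaBC

open Pool.Agent.Lib.MP_4223bd_al

/-! The kernel for a chain with a double bond at its first edge, and the intertwining identity.
The end vertex `x` has base `s = q ^ α`, the other vertices `t` have base `p = q ^ β`. -/

variable {K : Type*} [Field K] {q s p : K} {m : ℕ} {α β r : ℤ}

def ta (r x : ℤ) (t : Fin m → ℤ) : Fin (m + 1) → ℤ := Fin.cons (r * x) t

@[simp] lemma ta_zero (x : ℤ) (t : Fin m → ℤ) : ta r x t 0 = r * x := rfl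
@[simp] lemma ta_succ (x : ℤ) (t : Fin m → ℤ) (j : Fin m) : ta r x t j.succ = t j := rfl

def hC (r x : ℤ) (t : Fin m → ℤ) : ℤ := ∑ j, (t j * t j - ta r x t j.castSucc * t j)

def kr (s p : K) (r a0 : ℤ) (a : Fin m → ℤ) (b0 : ℤ) (b : Fin m → ℤ) : K :=
  EF s p r (a0 - b0) *
    (∏ j, EE p (ta r a0 a j.castSucc) (a j) (ta r b0 b j.castSucc) (b j)) *
    (io p (ta r a0 a (Fin.last m)) * io p (-ta r b0 b (Fin.last m)))

lemma reorg1 {γ : Type*} (I : Finset ℤ) (C : Finset γ) (A : γ → K) (F : γ → ℤ → K)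
    (G : γ → Fin m → ℤ → K) :
    ∑ x ∈ I, ∑ t ∈ Fintype.piFinset (fun _ : Fin m => I), ∑ c ∈ C,
      A c * F c x * ∏ j, G c j (t j) =
    ∑ c ∈ C, A c * (∑ x ∈ I, F c x) * ∏ j, ∑ k ∈ I, G c j k := by
  simp only [Finset.prod_univ_sum, Finset.mul_sum, Finset.sum_mul]
  symm
  rw [Finset.sum_comm]
  conv_lhs => enter [2, t]; rw [Finset.sum_comm]
  rw [Finset.sum_comm]

lemma ptL (hp : Good p) (u : K) (a0 : ℤ) (a : Fin m → ℤ) (b0 : ℤ) (b : Fin m → ℤ)
    (x : ℤ) (t c : Fin m → ℤ) :
    u * p ^ hC r x t * (EF s p r (x - b0) *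
      (∏ j, (p ^ ((ta r x t j.castSucc - c j) * (t j - c j)) * io p (ta r x t j.castSucc - c j) *
        io p (t j - c j) * io p (c j - ta r b0 b j.castSucc) * io p (c j - b j))) *
      (io p (ta r x t (Fin.last m)) * io p (-ta r b0 b (Fin.last m)))) *
      (io s (a0 - x) * ∏ j, io p (a j - t j)) =
    ((∏ j, (p ^ (c j * c j - c j * cb c j.succ) * io p (c j - ta r b0 b j.castSucc) *
        io p (c j - b j))) * io p (-ta r b0 b (Fin.last m))) *
      (u * p ^ (-(cb c 0 * (r * x))) * EF s p r (x - b0) * io s (a0 - x) * io p (r * x - cb c 0)) *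
      ∏ j, (p ^ ((t j - c j) * (t j - cb c j.succ)) * io p (a j - t j) * io p (t j - c j) *
        io p (t j - cb c j.succ)) := by
  have t1 := tele_prod fun i => io p (ta r x t i - cb c i)
  have t2 := tele_sum fun i => ta r x t i * cb c i
  simp only [ta_zero, ta_succ, cb_cast, cb_last, sub_zero, mul_zero, add_zero] at t1 t2
  have key : ∑ j, ((t j * t j - ta r x t j.castSucc * t j) +
      (ta r x t j.castSucc - c j) * (t j - c j) + ta r x t j.castSucc * c j) =
      ∑ j, ((c j * c j - c j * cb c j.succ) + (t j - c j) * (t j - cb c j.succ) +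
        t j * cb c j.succ) := Finset.sum_congr rfl fun j _ => by ring
  simp only [Finset.sum_add_distrib] at key
  have ex : p ^ hC r x t * p ^ ∑ j, (ta r x t j.castSucc - c j) * (t j - c j) =
      p ^ (∑ j, (c j * c j - c j * cb c j.succ)) * p ^ (-(cb c 0 * (r * x))) *
        p ^ ∑ j, (t j - c j) * (t j - cb c j.succ) := by
    simp only [← zpow_add₀ hp.1]
    congr 1
    rw [hC]
    linarith
  simp only [Finset.prod_mul_distrib, prod_zp hp]
  calc _ = (p ^ hC r x t * p ^ ∑ j, (ta r x t j.castSucc - c j) * (t j - c j)) *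
      ((∏ j, io p (ta r x t j.castSucc - c j)) * io p (ta r x t (Fin.last m))) *
      (u * EF s p r (x - b0) * (∏ j, io p (t j - c j)) * (∏ j, io p (c j - ta r b0 b j.castSucc)) *
        (∏ j, io p (c j - b j)) * io p (-ta r b0 b (Fin.last m)) *
        (io s (a0 - x) * ∏ j, io p (a j - t j))) := by ring
    _ = _ := by rw [ex, t1]; ring

lemma ptR (hp : Good p) (u : K) (a0 : ℤ) (a : Fin m → ℤ) (b0 : ℤ) (b : Fin m → ℤ)
    (x : ℤ) (t c : Fin m → ℤ) :
    u * p ^ hC r x t * (EF s p r (a0 - x) *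
      (∏ j, (p ^ ((c j - ta r x t j.castSucc) * (c j - t j)) * io p (ta r a0 a j.castSucc - c j) *
        io p (a j - c j) * io p (c j - ta r x t j.castSucc) * io p (c j - t j))) *
      (io p (ta r a0 a (Fin.last m)) * io p (-ta r x t (Fin.last m)))) *
      (io s (x - b0) * ∏ j, io p (t j - b j)) =
    ((∏ j, (p ^ (c j * c j - c j * cb c j.succ) * io p (ta r a0 a j.castSucc - c j) *
        io p (a j - c j))) * io p (ta r a0 a (Fin.last m))) *
      (u * p ^ (-(cb c 0 * (r * x))) * EF s p r (a0 - x) * io s (x - b0) * io p (cb c 0 - r * x)) *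
      ∏ j, (p ^ ((c j - t j) * (cb c j.succ - t j)) * io p (t j - b j) * io p (c j - t j) *
        io p (cb c j.succ - t j)) := by
  have t1 := tele_prod fun i => io p (cb c i - ta r x t i)
  have t2 := tele_sum fun i => ta r x t i * cb c i
  simp only [ta_zero, ta_succ, cb_cast, cb_last, zero_sub, mul_zero, add_zero] at t1 t2
  have key : ∑ j, ((t j * t j - ta r x t j.castSucc * t j) +
      (c j - ta r x t j.castSucc) * (c j - t j) + ta r x t j.castSucc * c j) =
      ∑ j, ((c j * c j - c j * cb c j.succ) + (c j - t j) * (cb c j.succ - t j) +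
        t j * cb c j.succ) := Finset.sum_congr rfl fun j _ => by ring
  simp only [Finset.sum_add_distrib] at key
  have ex : p ^ hC r x t * p ^ ∑ j, (c j - ta r x t j.castSucc) * (c j - t j) =
      p ^ (∑ j, (c j * c j - c j * cb c j.succ)) * p ^ (-(cb c 0 * (r * x))) *
        p ^ ∑ j, (c j - t j) * (cb c j.succ - t j) := by
    simp only [← zpow_add₀ hp.1]
    congr 1
    rw [hC]
    linarith
  simp only [Finset.prod_mul_distrib, prod_zp hp]
  calc _ = (p ^ hC r x t * p ^ ∑ j, (c j - ta r x t j.castSucc) * (c j - t j)) *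
      ((∏ j, io p (c j - ta r x t j.castSucc)) * io p (-ta r x t (Fin.last m))) *
      (u * EF s p r (a0 - x) * (∏ j, io p (a j - c j)) * (∏ j, io p (ta r a0 a j.castSucc - c j)) *
        (∏ j, io p (c j - t j)) * io p (ta r a0 a (Fin.last m)) *
        (io s (x - b0) * ∏ j, io p (t j - b j))) := by ring
    _ = _ := by rw [ex, t1]; ring

/-- The identity at the end vertex, in the form used below. -/
def Fk (s p : K) (r : ℤ) : Prop := ∀ N a b c : ℤ, 0 ≤ b → a ≤ N →
  (∑ x ∈ Finset.Icc 0 N, s ^ (x * x) * p ^ (-(c * (r * x))) * EF s p r (x - b) * io s (a - x) *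
      io p (r * x - c)) * io p (c - r * b) =
    (∑ x ∈ Finset.Icc 0 N, s ^ (x * x) * p ^ (-(c * (r * x))) * EF s p r (a - x) * io s (x - b) *
      io p (c - r * x)) * io p (r * a - c)

lemma fk_of (hq : Good q) (hr : 0 < r) (hα : 2 * α = β * (r * r)) (hs : s = q ^ α) (hp : p = q ^ β)
    (h : Step q s p α β r) : Fk s p r := by
  intro N a b c h1 h2
  have := fork hq hr hα h 0 N c ((a - b).toNat + 1) a b (by omega) h1 h2
  rw [sum_neg] at this
  have w : ∀ x : ℤ, s ^ (x * x) * p ^ (-(c * (r * x))) = q ^ (α * (x * x) - β * (c * (r * x))) := by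
    intro x
    rw [hs, hp, ← zpow_mul, ← zpow_mul, ← zpow_add₀ hq.1]
    congr 1
    ring
  rw [Finset.sum_mul, Finset.sum_mul]
  refine Eq.trans (Finset.sum_congr rfl fun x _ => ?_) (this.trans (Finset.sum_congr rfl fun x _ => ?_))
  · rw [tL, w]
  · rw [tL, w, show α * (-x * -x) - β * (-c * (r * -x)) = α * (x * x) - β * (c * (r * x)) by ring,
      show -x - -a = a - x by ring, show -b - -x = x - b by ring,
      show r * -x - -c = c - r * x by ring, show -c - r * -a = r * a - c by ring]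

theorem twine (hp : Good p) (hF : Fk s p r) (N a0 : ℤ) (a : Fin m → ℤ) (b0 : ℤ) (b : Fin m → ℤ)
    (ha0 : a0 ≤ N) (ha : ∀ j, a j ≤ N) (hb0 : 0 ≤ b0) (hb : ∀ j, 0 ≤ b j) :
    ∑ x ∈ Finset.Icc 0 N, ∑ t ∈ Fintype.piFinset (fun _ : Fin m => Finset.Icc 0 N),
        s ^ (x * x) * p ^ hC r x t * kr s p r x t b0 b * (io s (a0 - x) * ∏ j, io p (a j - t j)) =
    ∑ x ∈ Finset.Icc 0 N, ∑ t ∈ Fintype.piFinset (fun _ : Fin m => Finset.Icc 0 N),
        s ^ (x * x) * p ^ hC r x t * kr s p r a0 a x t * (io s (x - b0) * ∏ j, io p (t j - b j)) := by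
  have hk := fun c => hF N a0 b0 c hb0 ha0
  set I := Finset.Icc 0 N with hI
  set P := Fintype.piFinset (fun _ : Fin m => I) with hP
  have memP : ∀ t ∈ P, ∀ j, 0 ≤ t j ∧ t j ≤ N := fun t ht j =>
    Finset.mem_Icc.mp (Fintype.mem_piFinset.mp ht j)
  have hL : ∀ x ∈ I, ∀ t ∈ P, s ^ (x * x) * p ^ hC r x t * kr s p r x t b0 b *
      (io s (a0 - x) * ∏ j, io p (a j - t j)) = ∑ c ∈ P,
      ((∏ j, (p ^ (c j * c j - c j * cb c j.succ) * io p (c j - ta r b0 b j.castSucc) *
        io p (c j - b j))) * io p (-ta r b0 b (Fin.last m))) *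
      (s ^ (x * x) * p ^ (-(cb c 0 * (r * x))) * EF s p r (x - b0) * io s (a0 - x) *
        io p (r * x - cb c 0)) *
      ∏ j, (p ^ ((t j - c j) * (t j - cb c j.succ)) * io p (a j - t j) * io p (t j - c j) *
        io p (t j - cb c j.succ)) := by
    intro x _ t ht
    rw [kr, Finset.prod_congr rfl fun j _ =>
      vander2 hp (ta r x t j.castSucc) (t j) (ta r b0 b j.castSucc) (b j) (hb j) (memP t ht j).2,
      Finset.prod_univ_sum]
    simp only [Finset.mul_sum, Finset.sum_mul]
    exact Finset.sum_congr rfl fun c _ => ptL hp _ a0 a b0 b x t c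
  have hR : ∀ x ∈ I, ∀ t ∈ P, s ^ (x * x) * p ^ hC r x t * kr s p r a0 a x t *
      (io s (x - b0) * ∏ j, io p (t j - b j)) = ∑ c ∈ P,
      ((∏ j, (p ^ (c j * c j - c j * cb c j.succ) * io p (ta r a0 a j.castSucc - c j) *
        io p (a j - c j))) * io p (ta r a0 a (Fin.last m))) *
      (s ^ (x * x) * p ^ (-(cb c 0 * (r * x))) * EF s p r (a0 - x) * io s (x - b0) *
        io p (cb c 0 - r * x)) *
      ∏ j, (p ^ ((c j - t j) * (cb c j.succ - t j)) * io p (t j - b j) * io p (c j - t j) *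
        io p (cb c j.succ - t j)) := by
    intro x _ t ht
    rw [kr, Finset.prod_congr rfl fun j _ =>
      vander1 hp (ta r a0 a j.castSucc) (a j) (ta r x t j.castSucc) (t j) (memP t ht j).1 (ha j),
      Finset.prod_univ_sum]
    simp only [Finset.mul_sum, Finset.sum_mul]
    exact Finset.sum_congr rfl fun c _ => ptR hp _ a0 a b0 b x t c
  rw [Finset.sum_congr rfl fun x hx => Finset.sum_congr rfl fun t ht => hL x hx t ht,
    Finset.sum_congr rfl fun x hx => Finset.sum_congr rfl fun t ht => hR x hx t ht]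
  refine (reorg1 I P _ (fun c x => s ^ (x * x) * p ^ (-(cb c 0 * (r * x))) * EF s p r (x - b0) *
      io s (a0 - x) * io p (r * x - cb c 0))
    (fun c j k => p ^ ((k - c j) * (k - cb c j.succ)) * io p (a j - k) * io p (k - c j) *
        io p (k - cb c j.succ))).trans (Eq.trans ?_
    (reorg1 I P _ (fun c x => s ^ (x * x) * p ^ (-(cb c 0 * (r * x))) * EF s p r (a0 - x) *
      io s (x - b0) * io p (cb c 0 - r * x))
    (fun c j k => p ^ ((c j - k) * (cb c j.succ - k)) * io p (k - b j) * io p (c j - k) *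
        io p (cb c j.succ - k))).symm)
  refine Finset.sum_congr rfl fun c hc => ?_
  rw [Finset.prod_congr rfl fun j _ =>
      durfee1 hp (a j) (c j) (cb c j.succ) (memP c hc j).1 (ha j),
    Finset.prod_congr rfl fun j _ =>
      durfee2 hp (b j) (c j) (cb c j.succ) (hb j) (memP c hc j).2]
  have t1 := tele_prod fun i => io p (ta r a0 a i - cb c i)
  have t2 := tele_prod fun i => io p (cb c i - ta r b0 b i)
  simp only [ta_zero, ta_succ, cb_cast, cb_last, sub_zero, zero_sub] at t1 t2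
  have t3 := hk (cb c 0)
  simp only [Finset.prod_mul_distrib]
  generalize (∑ x ∈ I, s ^ (x * x) * p ^ (-(cb c 0 * (r * x))) * EF s p r (x - b0) *
      io s (a0 - x) * io p (r * x - cb c 0)) = L at t3 ⊢
  generalize (∑ x ∈ I, s ^ (x * x) * p ^ (-(cb c 0 * (r * x))) * EF s p r (a0 - x) *
      io s (x - b0) * io p (cb c 0 - r * x)) = R at t3 ⊢
  linear_combination ((∏ j, p ^ (c j * c j - c j * cb c j.succ)) * (∏ j, io p (c j - b j)) *
      (∏ j, io p (a j - c j))) * (L * (∏ j, io p (a j - cb c j.succ)) * t2 +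
      (∏ j, io p (a j - cb c j.succ)) * (∏ j, io p (cb c j.succ - b j)) * t3 -
      R * (∏ j, io p (cb c j.succ - b j)) * t1)

end Pool.Agent.FS.TodaBC
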