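import Pool.Agent.FS.TodaBC.Ker

set_option autoImplicit false

open Polynomial

namespace Pool.Agent.FS.TodaBC

open Pool.Agent.Lib.MP_4223bd_al

/-! The solution of the recursion is fixed by the kernel; the numerators satisfy a recursion
with products of Gaussian binomials as coefficients. -/

variable {K : Type*} [Field K] {q s p : K} {m : ℕ} {α β r : ℤ}

lemma gauss_in (S : Subsemiring K) (hp : p ∈ S) (n : ℕ) : ∀ k : ℕ, ev p (gauss n k) ∈ S := by
  induction n with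
  | zero => intro k; rw [gauss_zero_left, map_one]; exact one_mem S
  | succ n ihn =>
    intro k
    induction k with
    | zero => rw [gauss_zero_right, map_one]; exact one_mem S
    | succ k ihk =>
      rw [gauss_succ, map_add, map_mul, map_pow, ev_X]
      exact add_mem (mul_mem (pow_mem hp _) ihk) (ihn _)

lemma gb_in (S : Subsemiring K) (hp : p ∈ S) (n k : ℤ) : ev p (gb n k) ∈ S := by
  rw [gb]
  split_ifs
  · exact gauss_in S hp _ _
  · rw [map_zero]; exact zero_mem S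

noncomputable def Rk (s p : K) (r a0 : ℤ) (a : Fin m → ℤ) (b0 : ℤ) (b : Fin m → ℤ) : K :=
  ev s (gb a0 b0) ^ 2 *
    (∏ j, ev p (gb (ta r a0 a j.castSucc + a j - (ta r b0 b j.castSucc + b j))
      (ta r a0 a j.castSucc - b j))) * (∏ j, ev p (gb (a j) (b j))) ^ 2

lemma Rk_in (S : Subsemiring K) (hs : s ∈ S) (hp : p ∈ S) (a0 : ℤ) (a : Fin m → ℤ) (b0 : ℤ)
    (b : Fin m → ℤ) : Rk s p r a0 a b0 b ∈ S :=
  mul_mem (mul_mem (pow_mem (gb_in S hs _ _) 2) (prod_mem fun _ _ => gb_in S hp _ _))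
    (pow_mem (prod_mem fun _ _ => gb_in S hp _ _) 2)

lemma Rk_ev (hs : Good s) (hp : Good p) (hr : 0 < r) (a0 : ℤ) (a : Fin m → ℤ) (b0 : ℤ)
    (b : Fin m → ℤ) (h : ta r b0 b (Fin.last m) = 0) (hb0 : 0 ≤ b0) (hb : ∀ j, 0 ≤ b j) :
    (pz s a0 * ∏ j, pz p (a j)) ^ 2 * kr s p r a0 a b0 b =
      Rk s p r a0 a b0 b * (pz s b0 * ∏ j, pz p (b j)) ^ 2 := by
  have t1 := tele_prod fun i => io p (ta r a0 a i - ta r b0 b i)
  simp only [ta_zero, ta_succ, h, sub_zero] at t1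
  have c0 := pz_mul_io hs hb0
  have c2 : (∏ j, pz p (b j)) * ∏ j, io p (b j) = 1 := by
    rw [← Finset.prod_mul_distrib]
    exact Finset.prod_eq_one fun j _ => pz_mul_io hp (hb j)
  have c3 : pz p (r * (a0 - b0)) * io p (r * a0 - r * b0) * io s (a0 - b0) ^ 2 =
      io s (a0 - b0) ^ 2 := by
    rcases lt_or_ge (a0 - b0) 0 with h1 | h1
    · rw [io_neg h1]; simp
    · rw [← mul_sub, pz_mul_io hp (mul_nonneg hr.le h1), one_mul]
  have e : ∀ j : Fin m, ta r a0 a j.castSucc + a j - (ta r b0 b j.castSucc + b j) -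
      (ta r a0 a j.castSucc - b j) = a j - ta r b0 b j.castSucc := fun j => by ring
  simp only [Rk, kr, EE, EF, ev_gb hp, ev_gb hs, h, neg_zero, io_zero, e, Finset.prod_mul_distrib]
  calc _ = (pz s a0 * ∏ j, pz p (a j)) ^ 2 *
      (∏ j, pz p (ta r a0 a j.castSucc + a j - (ta r b0 b j.castSucc + b j))) *
      (∏ j, io p (a j - b j)) * (∏ j, io p (ta r a0 a j.castSucc - b j)) *
      (∏ j, io p (a j - ta r b0 b j.castSucc)) *
      (pz p (r * (a0 - b0)) *
        ((∏ j : Fin m, io p (ta r a0 a j.castSucc - ta r b0 b j.castSucc)) *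
          io p (ta r a0 a (Fin.last m))) * io s (a0 - b0) ^ 2) := by ring
    _ = (pz s a0 * ∏ j, pz p (a j)) ^ 2 *
      (∏ j, pz p (ta r a0 a j.castSucc + a j - (ta r b0 b j.castSucc + b j))) *
      (∏ j, io p (a j - b j)) * (∏ j, io p (ta r a0 a j.castSucc - b j)) *
      (∏ j, io p (a j - ta r b0 b j.castSucc)) * ((∏ j, io p (a j - b j)) *
        (pz p (r * (a0 - b0)) * io p (r * a0 - r * b0) * io s (a0 - b0) ^ 2)) *
        ((pz s b0 * io s b0) ^ 2 * ((∏ j, pz p (b j)) * ∏ j, io p (b j)) ^ 2) := by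
        rw [t1, c0, c2]; ring
    _ = _ := by rw [c3]; ring

lemma two_hC (x : ℤ) (t : Fin m → ℤ) : 2 * hC r x t + (r * x) ^ 2 =
    ∑ j, (ta r x t j.castSucc - t j) ^ 2 + ta r x t (Fin.last m) ^ 2 := by
  have t2 := tele_sum fun i => ta r x t i ^ 2
  simp only [ta_zero, ta_succ] at t2
  have key : ∑ j, ((ta r x t j.castSucc - t j) ^ 2 + t j ^ 2) =
      ∑ j, (2 * (t j * t j - ta r x t j.castSucc * t j) + ta r x t j.castSucc ^ 2) :=
    Finset.sum_congr rfl fun j _ => by ring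
  simp only [Finset.sum_add_distrib, ← Finset.mul_sum] at key
  rw [hC]
  linarith

lemma zero_mono (hr : 0 < r) {v : Fin (m + 1) → ℤ} (hv : ∀ i, 0 ≤ v i)
    (h1 : ∀ j, ta r (v 0) (Fin.tail v) j.castSucc ≤ Fin.tail v j)
    (h2 : ta r (v 0) (Fin.tail v) (Fin.last m) ≤ 0) : v = 0 := by
  have hm : Monotone (ta r (v 0) (Fin.tail v)) := Fin.monotone_iff_le_succ.mpr h1
  have a0 := hm (Fin.le_last 0)
  rw [ta_zero] at a0
  funext i
  refine le_antisymm (Fin.cases ?_ (fun j => ?_) i) (hv i)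
  · have := hv 0
    show v 0 ≤ 0
    nlinarith
  · exact (hm (Fin.le_last j.succ)).trans h2

def HV (α β r : ℤ) (v : Fin (m + 1) → ℤ) : ℤ := α * (v 0 * v 0) + β * hC r (v 0) (Fin.tail v)

lemma HV_pos (hr : 0 < r) (hβ : 0 < β) (hα : 2 * α = β * (r * r)) {v : Fin (m + 1) → ℤ}
    (hv : ∀ i, 0 ≤ v i) (hne : v ≠ 0) : 0 < HV α β r v := by
  have h0 := two_hC (r := r) (v 0) (Fin.tail v)
  have h1 : 0 ≤ ∑ j, (ta r (v 0) (Fin.tail v) j.castSucc - Fin.tail v j) ^ 2 :=
    Finset.sum_nonneg fun j _ => sq_nonneg _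
  have h3 := sq_nonneg (ta r (v 0) (Fin.tail v) (Fin.last m))
  have e : 2 * HV α β r v = β * (∑ j, (ta r (v 0) (Fin.tail v) j.castSucc - Fin.tail v j) ^ 2 +
      ta r (v 0) (Fin.tail v) (Fin.last m) ^ 2) := by
    rw [HV, ← h0]; linear_combination (v 0 * v 0) * hα
  by_contra hc
  have h6 : ∑ j, (ta r (v 0) (Fin.tail v) j.castSucc - Fin.tail v j) ^ 2 +
      ta r (v 0) (Fin.tail v) (Fin.last m) ^ 2 ≤ 0 := by
    by_contra h7
    have := mul_pos hβ (not_le.mp h7)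
    omega
  have h4 : ∑ j, (ta r (v 0) (Fin.tail v) j.castSucc - Fin.tail v j) ^ 2 = 0 := by linarith
  have h5 : ta r (v 0) (Fin.tail v) (Fin.last m) ^ 2 = 0 := by linarith
  refine hne (zero_mono hr hv (fun j => ?_) (pow_eq_zero_iff two_ne_zero |>.mp h5).le)
  have := (Finset.sum_eq_zero_iff_of_nonneg fun j _ => sq_nonneg _).mp h4 j (Finset.mem_univ _)
  have := pow_eq_zero_iff two_ne_zero |>.mp this
  omega

lemma ta_zero_fun (i : Fin (m + 1)) : ta r 0 (fun _ => 0) i = 0 :=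
  Fin.cases (mul_zero r) (fun _ => rfl) i

lemma HV_zero : HV α β r (0 : Fin (m + 1) → ℤ) = 0 := by
  simp [HV, hC, Fin.tail]

def kW (s p : K) (r : ℤ) (v u : Fin (m + 1) → ℤ) : K :=
  kr s p r (v 0) (Fin.tail v) (u 0) (Fin.tail u)

def dW (s p : K) (v u : Fin (m + 1) → ℤ) : K :=
  io s (v 0 - u 0) * ∏ j, io p (Fin.tail v j - Fin.tail u j)

lemma kW_ne {v u : Fin (m + 1) → ℤ} (h : kW s p r v u ≠ 0) : (∀ i, u i ≤ v i) ∧
    (∀ j, ta r (u 0) (Fin.tail u) j.castSucc ≤ Fin.tail v j) ∧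
      ta r (u 0) (Fin.tail u) (Fin.last m) ≤ 0 := by
  simp only [kW, kr, EE, EF, ne_eq, mul_eq_zero, not_or, Finset.prod_eq_zero_iff, not_exists,
    Finset.mem_univ, true_and, sq] at h
  obtain ⟨⟨h1, h2⟩, _, h4⟩ := h
  have a1 := nonneg_of_io h1.2.1
  have a3 := nonneg_of_io h4
  refine ⟨fun i => Fin.cases (by omega) (fun j => ?_) i, fun j => ?_, by omega⟩
  · exact sub_nonneg.mp (nonneg_of_io (h2 j).2)
  · exact sub_nonneg.mp (nonneg_of_io (h2 j).1.1.2)

lemma dW_ne {v u : Fin (m + 1) → ℤ} (h : dW s p v u ≠ 0) (i : Fin (m + 1)) : u i ≤ v i := by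
  refine Fin.cases (sub_nonneg.mp (nonneg_of_io (left_ne_zero_of_mul h))) (fun j => ?_) i
  exact sub_nonneg.mp (nonneg_of_io
    (Finset.prod_ne_zero_iff.mp (right_ne_zero_of_mul h) j (Finset.mem_univ _)))

lemma twineV (hq : Good q) (hs : s = q ^ α) (hp' : p = q ^ β) (hp : Good p) (hF : Fk s p r)
    (N : ℤ) {v u : Fin (m + 1) → ℤ} (hv : v ∈ box _ N) (hu : u ∈ box _ N) :
    ∑ w ∈ box _ N, q ^ HV α β r w * kW s p r w u * dW s p v w =
      ∑ w ∈ box _ N, q ^ HV α β r w * kW s p r v w * dW s p w u := by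
  rw [mem_box] at hv hu
  have := twine hp hF N (v 0) (Fin.tail v) (u 0) (Fin.tail u) (hv _).2
    (fun _ => (hv _).2) (hu _).1 (fun _ => (hu _).1)
  have w : ∀ (x : ℤ) (t : Fin m → ℤ), q ^ HV α β r (Fin.cons x t) = s ^ (x * x) * p ^ hC r x t := by
    intro x t
    rw [hs, hp', ← zpow_mul, ← zpow_mul, ← zpow_add₀ hq.1]
    rfl
  rw [box, sum_cons, sum_cons]
  simp only [w]
  exact this

theorem fixedW (hq : Good q) (hr : 0 < r) (hβ : 0 < β) (hα : 2 * α = β * (r * r))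
    (hs : s = q ^ α) (hp' : p = q ^ β) (hp : Good p) (hF : Fk s p r) (N : ℤ) (hN : 0 ≤ N)
    (J : (Fin (m + 1) → ℤ) → K) (h0 : J 0 = 1)
    (hJ : ∀ v ∈ box _ N, J v = ∑ w ∈ box _ N, (q ^ HV α β r w * dW s p v w) * J w) :
    ∀ v ∈ box _ N, J v = ∑ u ∈ box _ N, q ^ HV α β r u * kW s p r v u * J u := by
  refine uniq_abs (box _ N) (fun v w => q ^ HV α β r w * dW s p v w)
    (fun v => ∑ i, (v i).toNat) 0 J _ ?_ ?_ hJ ?_ ?_
  · intro v _ u hu hne h
    exact size_lt (fun i => (mem_box.mp hu i).1) (dW_ne (right_ne_zero_of_mul h)) hne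
  · intro v hv hne
    simp only [dW, sub_self, io_zero, Finset.prod_const_one, mul_one]
    exact one_sub_ne hq (HV_pos hr hβ hα (fun i => (mem_box.mp hv i).1) hne)
  · intro v hv
    calc ∑ u ∈ box _ N, q ^ HV α β r u * kW s p r v u * J u
        = ∑ w ∈ box _ N, ∑ u ∈ box _ N,
            (q ^ HV α β r u * J u) * (q ^ HV α β r w * kW s p r v w * dW s p w u) := by
          refine Finset.sum_congr rfl fun w hw => ?_
          rw [hJ w hw, Finset.mul_sum]
          exact Finset.sum_congr rfl fun u _ => by ring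
      _ = ∑ u ∈ box _ N, ∑ w ∈ box _ N,
            (q ^ HV α β r u * J u) * (q ^ HV α β r w * kW s p r w u * dW s p v w) := by
          rw [Finset.sum_comm]
          refine Finset.sum_congr rfl fun u hu => ?_
          rw [← Finset.mul_sum, ← Finset.mul_sum, twineV hq hs hp' hp hF N hv hu]
      _ = _ := by
          rw [Finset.sum_comm]
          refine Finset.sum_congr rfl fun w _ => ?_
          rw [Finset.mul_sum]
          exact Finset.sum_congr rfl fun u _ => by ring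
  · have hz : (0 : Fin (m + 1) → ℤ) ∈ box _ N := mem_box.mpr fun i => ⟨le_rfl, hN⟩
    rw [Finset.sum_eq_single_of_mem 0 hz]
    · have e : Fin.tail (0 : Fin (m + 1) → ℤ) = fun _ => 0 := rfl
      simp [h0, HV_zero, kW, kr, EE, EF, e, ta_zero_fun]
    · intro u hu hne
      have : kW s p r 0 u = 0 := by
        by_contra h
        apply hne
        funext i
        exact le_antisymm ((kW_ne h).1 i) (mem_box.mp hu i).1
      simp [this]

theorem numer_in (S : Subsemiring K) (hqS : q ∈ S) (hq : Good q) (hr : 0 < r) (hβ : 0 < β)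
    (hα : 2 * α = β * (r * r)) (hs : s = q ^ α) (hp' : p = q ^ β) (hsg : Good s) (hp : Good p)
    (hsS : s ∈ S) (hpS : p ∈ S) (hF : Fk s p r) (N : ℤ) (hN : 0 ≤ N)
    (J : (Fin (m + 1) → ℤ) → K) (h0 : J 0 = 1)
    (hJ : ∀ v ∈ box _ N, J v = ∑ w ∈ box _ N, (q ^ HV α β r w * dW s p v w) * J w) :
    ∀ v ∈ box _ N, (pz s (v 0) * ∏ j, pz p (Fin.tail v j)) ^ 2 * J v ∈ S := by
  intro v
  induction' hn : ∑ i, (v i).toNat using Nat.strong_induction_on with n ih generalizing v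
  intro hv
  by_cases hvz : v = 0
  · subst hvz
    have e : Fin.tail (0 : Fin (m + 1) → ℤ) = fun _ => 0 := rfl
    simp [h0, e]
  rw [fixedW hq hr hβ hα hs hp' hp hF N hN J h0 hJ v hv, Finset.mul_sum]
  refine sum_mem fun u hu => ?_
  by_cases hk : kW s p r v u = 0
  · simp [hk]
  have hu' := mem_box.mp hu
  obtain ⟨h3, h4, h5⟩ := kW_ne hk
  have hne : u ≠ v := by
    rintro rfl
    exact hvz (zero_mono hr (fun i => (hu' i).1) h4 h5)
  have hp2 := ih _ (hn ▸ size_lt (fun i => (hu' i).1) h3 hne) u rfl hu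
  have hl : ta r (u 0) (Fin.tail u) (Fin.last m) = 0 :=
    le_antisymm h5 (Fin.cases (motive := fun i => 0 ≤ ta r (u 0) (Fin.tail u) i)
      (mul_nonneg hr.le (hu' 0).1) (fun j => (hu' j.succ).1) _)
  have hh : 0 ≤ HV α β r u := by
    by_cases hu0 : u = 0
    · rw [hu0, HV_zero]
    · exact (HV_pos hr hβ hα (fun i => (hu' i).1) hu0).le
  have h6 := Rk_ev hsg hp hr (v 0) (Fin.tail v) (u 0) (Fin.tail u) hl (hu' _).1
    (fun _ => (hu' _).1)
  have h7 := mul_mem (mul_mem (pow_mem hqS (HV α β r u).toNat)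
    (Rk_in (r := r) S hsS hpS (v 0) (Fin.tail v) (u 0) (Fin.tail u))) hp2
  rw [← zpow_natCast, Int.toNat_of_nonneg hh] at h7
  convert h7 using 1
  rw [kW]
  linear_combination (q ^ HV α β r u * J u) * h6

end Pool.Agent.FS.TodaBC
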