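import Pool.Agent.FS.TodaBC.Blocks
import Pool.Agent.FS.TodaBC.Data

set_option autoImplicit false

open Polynomial

namespace Pool.Agent.FS.TodaBC

open Pool.Agent.Lib.MP_4223bd_al

/-! The simple types that are not simply-laced, over the field of rational functions. -/

lemma gdX : Good (RatFunc.X : RatFunc ℚ) := by
  refine ⟨RatFunc.X_ne_zero, fun k h => ?_⟩
  have h1 : (algebraMap ℚ[X] (RatFunc ℚ)) (1 - X ^ (k + 1)) = 0 := by
    simpa using h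
  have h2 : (1 - X ^ (k + 1) : ℚ[X]) = 0 := (RatFunc.algebraMap_injective ℚ) (by simpa using h1)
  have h3 := congrArg (fun p : ℚ[X] => p.coeff 0) h2
  simp at h3

lemma prodIcc (d x : ℕ) :
    ∏ j ∈ Finset.Icc 1 x, (1 - (RatFunc.X : RatFunc ℚ) ^ (d * j)) = pq (RatFunc.X ^ d) x := by
  rw [pq, ← Finset.Ico_add_one_right_eq_Icc, Finset.prod_Ico_eq_prod_range]
  simp [add_comm, pow_mul]

lemma evInj : Function.Injective (ev (RatFunc.X : RatFunc ℚ)) := by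
  have : ev (RatFunc.X : RatFunc ℚ) =
      (algebraMap ℚ[X] (RatFunc ℚ)).comp (mapRingHom (Int.castRingHom ℚ)) :=
    Polynomial.ringHom_ext' (Subsingleton.elim _ _) (by simp)
  rw [this, RingHom.coe_comp]
  exact (RatFunc.algebraMap_injective ℚ).comp (map_injective _ Int.cast_injective)

lemma good_pow {d : ℕ} (hd : 0 < d) : Good ((RatFunc.X : RatFunc ℚ) ^ d) := by
  refine ⟨pow_ne_zero _ RatFunc.X_ne_zero, fun k => ?_⟩
  obtain ⟨m, hm⟩ : ∃ m, d * (k + 1) = m + 1 :=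
    ⟨d * (k + 1) - 1, by have : 0 < d * (k + 1) := Nat.mul_pos hd (Nat.succ_pos k); omega⟩
  rw [← pow_mul, hm]
  exact gdX.2 m

noncomputable def ph : ℕ[X] →+* RatFunc ℚ :=
  (algebraMap ℚ[X] (RatFunc ℚ)).comp (Polynomial.mapRingHom (Nat.castRingHom ℚ))

lemma ph_X : ph X = RatFunc.X := by simp [ph]

def qvG : Fin 1 ⊕ Fin 1 ≃ Fin 2 where
  toFun := Sum.elim ![0] ![1]
  invFun := ![.inl 0, .inr 0]
  left_inv := by decide
  right_inv := by decide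

def qvH : Fin 2 ⊕ Fin 2 ≃ Fin 4 where
  toFun := Sum.elim ![0, 2] ![1, 3]
  invFun := ![.inl 0, .inr 0, .inl 1, .inr 1]
  left_inv := by decide
  right_inv := by decide

lemma PK_eq {m α β : ℕ} {r : ℤ} {G : Matrix (Fin (m + 1)) (Fin (m + 1)) ℤ}
    (hG : ∀ i j : Fin (m + 1), G i.rev j.rev = Tm α β r i j) (a : Fin (m + 1) → ℕ) :
    PK (RatFunc.X : RatFunc ℚ) (dN G) a = PW (RatFunc.X ^ α) (RatFunc.X ^ β) a := by
  rw [PK, ← Equiv.prod_comp Fin.revPerm, Fin.prod_univ_succ, PW]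
  simp only [Fin.revPerm_apply, dN, hG]
  simp [Tm, Ad]

lemma posT {m α β : ℕ} {r : ℤ} {G : Matrix (Fin (m + 1)) (Fin (m + 1)) ℤ}
    (hG : ∀ i j : Fin (m + 1), G i.rev j.rev = Tm α β r i j) (hr : 0 < r) (ha : 0 < α) (hb : 0 < β)
    (hα : 2 * (α : ℤ) = β * (r * r))
    (hst : Step (RatFunc.X : RatFunc ℚ) (RatFunc.X ^ α) (RatFunc.X ^ β) α β r) :
    PosN (RatFunc.X : RatFunc ℚ) ph.rangeS G := by
  have hX : (RatFunc.X : RatFunc ℚ) ∈ ph.rangeS := ⟨X, ph_X⟩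
  have hb' : (0 : ℤ) < β := by exact_mod_cast hb
  refine PosN.mk' (fun i => ?_) _ (form_rev hG) (pos_rev hr hb' hα) fun J hJ a => ?_
  · rw [← Fin.rev_rev i, dN, hG]
    simp only [Tm, Ad, if_true]
    split_ifs <;> omega
  · obtain ⟨h0, hJ⟩ := hJ
    simp only [PK_eq hG] at hJ ⊢
    exact core ph.rangeS hX gdX hr hb' hα (zpow_natCast _ _).symm (zpow_natCast _ _).symm
      (good_pow ha) (good_pow hb) (pow_mem hX _) (pow_mem hX _) hst G hG J h0 hJ a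

lemma posB (n : ℕ) (hn : 2 ≤ n) : PosN (RatFunc.X : RatFunc ℚ) ph.rangeS
    (CartanMatrix.B n * Matrix.diagonal fun i => if i.val + 1 = n then 1 else 2) := by
  obtain ⟨m, rfl⟩ : ∃ m, n = m + 1 := ⟨n - 1, by omega⟩
  refine posT (α := 1) (β := 2) (r := 1) (fun i j => ?_) one_pos one_pos two_pos (by norm_num)
    (by rw [pow_one]; exact step_B gdX)
  have hi := i.2
  have hj := j.2
  rw [Matrix.mul_diagonal]
  simp only [CartanMatrix.B, Matrix.of_apply, Tm, Ad, Fin.ext_iff, Fin.val_rev]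
  split_ifs <;> omega

lemma posC (n : ℕ) (hn : 2 ≤ n) : PosN (RatFunc.X : RatFunc ℚ) ph.rangeS
    (CartanMatrix.C n * Matrix.diagonal fun i => if i.val + 1 = n then 2 else 1) := by
  obtain ⟨m, rfl⟩ : ∃ m, n = m + 1 := ⟨n - 1, by omega⟩
  refine posT (α := 2) (β := 1) (r := 2) (fun i j => ?_) two_pos two_pos one_pos (by norm_num)
    (by rw [pow_one]; exact step_C gdX)
  have hi := i.2
  have hj := j.2
  rw [Matrix.mul_diagonal]
  simp only [CartanMatrix.C, Matrix.of_apply, Tm, Ad, Fin.ext_iff, Fin.val_rev]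
  split_ifs <;> omega

lemma typeG (G : Matrix (Fin 2) (Fin 2) ℤ) (hG : G = !![6, -3; -3, 2]) :
    PosN (RatFunc.X : RatFunc ℚ) ph.rangeS G := by
  have hD : ∀ i, 0 < (G i i / 2).toNat := by rw [hG]; decide
  have e1 : ∀ i, (G (qvG (.inl i)) (qvG (.inl i)) / 2).toNat = dG i := by rw [hG]; decide
  have e2 : ∀ i, (G (qvG (.inr i)) (qvG (.inr i)) / 2).toNat = fG i := by rw [hG]; decide
  have hq : ∀ c : Fin 2 → ℕ, ∑ i, ∑ j, (c i : ℤ) * G i j * (c j : ℤ) =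
      2 * (3 * (c 0 : ℤ) ^ 2 + (c 1 : ℤ) ^ 2 - 3 * c 0 * c 1) := by
    intro c; simp [hG, Fin.sum_univ_succ]; ring
  have h4 : ∀ c : Fin 2 → ℕ, (hN G c : ℤ) =
      3 * (c 0 : ℤ) ^ 2 + (c 1 : ℤ) ^ 2 - 3 * c 0 * c 1 := by
    intro c
    rw [hN, hq, Int.mul_ediv_cancel_left _ two_ne_zero, Int.toNat_of_nonneg]
    nlinarith [sq_nonneg (2 * (c 1 : ℤ) - 3 * c 0), sq_nonneg (c 0 : ℤ)]
  obtain ⟨F, F0, hF, hS⟩ := realG gdX ph.rangeS ⟨X, ph_X⟩
    (fun j => good_pow (by revert j; decide)) (fun j => good_pow (by revert j; decide))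
  have hpos : ∀ c, c ≠ 0 → 0 < hN G c := by
    intro c hc
    by_contra h
    have h5 := h4 c
    rw [show hN G c = 0 by omega] at h5
    push_cast at h5
    have z0 : (c 0 : ℤ) = 0 := pow_eq_zero_iff two_ne_zero |>.mp (by
      linarith [sq_nonneg (2 * (c 1 : ℤ) - 3 * c 0), sq_nonneg (c 0 : ℤ),
        show (2 * (c 1 : ℤ) - 3 * c 0) ^ 2 = 4 * (c 1 : ℤ) ^ 2 - 12 * c 0 * c 1 + 9 * (c 0 : ℤ) ^ 2
          by ring])
    have z1 : (c 1 : ℤ) = 0 := pow_eq_zero_iff two_ne_zero |>.mp (by rw [z0] at h5; linarith)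
    apply hc
    funext i
    fin_cases i
    · exact_mod_cast z0
    · exact_mod_cast z1
  refine ⟨hD, fun c => by rw [h4]; exact hq c, hpos, fun J hJ a => ?_⟩
  refine exc_core gdX evInj ph ph_X qvG _ hD (fun i => good_pow (hD i)) lG (hN G) hpos ?_ F F0
    (by simpa only [e1, e2] using hF) hS J hJ.1 hJ.2 a
  · intro c
    simp only [h4, e1, e2]
    simp [qvG, dG, fG, lG]
    ring

lemma typeF (G : Matrix (Fin 4) (Fin 4) ℤ)
    (hG : G = !![4, -2, 0, 0; -2, 4, -2, 0; 0, -2, 2, -1; 0, 0, -1, 2]) :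
    PosN (RatFunc.X : RatFunc ℚ) ph.rangeS G := by
  have hD : ∀ i, 0 < (G i i / 2).toNat := by rw [hG]; decide
  have e1 : ∀ i, (G (qvH (.inl i)) (qvH (.inl i)) / 2).toNat = TodaBC.dH i := by rw [hG]; decide
  have e2 : ∀ i, (G (qvH (.inr i)) (qvH (.inr i)) / 2).toNat = fH i := by rw [hG]; decide
  have hq : ∀ c : Fin 4 → ℕ, ∑ i, ∑ j, (c i : ℤ) * G i j * (c j : ℤ) =
      2 * (2 * (c 0 : ℤ) ^ 2 + 2 * (c 1 : ℤ) ^ 2 + (c 2 : ℤ) ^ 2 + (c 3 : ℤ) ^ 2 -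
        2 * c 0 * c 1 - 2 * c 1 * c 2 - c 2 * c 3) := by
    intro c; simp [hG, Fin.sum_univ_four]; ring
  have sq : ∀ x y z w : ℤ, 12 * (2 * x ^ 2 + 2 * y ^ 2 + z ^ 2 + w ^ 2 - 2 * x * y - 2 * y * z - z * w) =
      3 * (2 * w - z) ^ 2 + 6 * (2 * x - y) ^ 2 + (3 * z - 4 * y) ^ 2 + 2 * y ^ 2 := by
    intro x y z w; ring
  have h4 : ∀ c : Fin 4 → ℕ, (hN G c : ℤ) =
      2 * (c 0 : ℤ) ^ 2 + 2 * (c 1 : ℤ) ^ 2 + (c 2 : ℤ) ^ 2 + (c 3 : ℤ) ^ 2 -
        2 * c 0 * c 1 - 2 * c 1 * c 2 - c 2 * c 3 := by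
    intro c
    rw [hN, hq, Int.mul_ediv_cancel_left _ two_ne_zero, Int.toNat_of_nonneg]
    have := sq (c 0) (c 1) (c 2) (c 3)
    have h1 : 0 ≤ 3 * (2 * (c 3 : ℤ) - c 2) ^ 2 + 6 * (2 * (c 0 : ℤ) - c 1) ^ 2 +
      (3 * (c 2 : ℤ) - 4 * c 1) ^ 2 + 2 * (c 1 : ℤ) ^ 2 := by positivity
    linarith
  obtain ⟨F, F0, hF, hS⟩ := realH gdX ph.rangeS ⟨X, ph_X⟩
    (fun j => good_pow (by revert j; decide)) (fun j => good_pow (by revert j; decide))
  have hpos : ∀ c, c ≠ 0 → 0 < hN G c := by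
    intro c hc
    by_contra h
    have h5 := h4 c
    rw [show hN G c = 0 by omega] at h5
    have h6 := sq (c 0) (c 1) (c 2) (c 3)
    rw [← h5] at h6
    have s1 := sq_nonneg (2 * (c 3 : ℤ) - c 2)
    have s2 := sq_nonneg (2 * (c 0 : ℤ) - c 1)
    have s3 := sq_nonneg (3 * (c 2 : ℤ) - 4 * c 1)
    have s4 := sq_nonneg (c 1 : ℤ)
    push_cast at h6
    have z1 := pow_eq_zero_iff two_ne_zero |>.mp (show (2 * (c 3 : ℤ) - c 2) ^ 2 = 0 by linarith)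
    have z2 := pow_eq_zero_iff two_ne_zero |>.mp (show (2 * (c 0 : ℤ) - c 1) ^ 2 = 0 by linarith)
    have z3 := pow_eq_zero_iff two_ne_zero |>.mp (show (3 * (c 2 : ℤ) - 4 * c 1) ^ 2 = 0 by linarith)
    have z4 := pow_eq_zero_iff two_ne_zero |>.mp (show (c 1 : ℤ) ^ 2 = 0 by linarith)
    apply hc
    funext i
    fin_cases i
    · show c 0 = 0; omega
    · show c 1 = 0; omega
    · show c 2 = 0; omega
    · show c 3 = 0; omega
  refine ⟨hD, fun c => by rw [h4]; exact hq c, hpos, fun J hJ a => ?_⟩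
  refine exc_core gdX evInj ph ph_X qvH _ hD (fun i => good_pow (hD i)) lH (hN G) hpos ?_ F F0
    (by simpa only [e1, e2] using hF) hS J hJ.1 hJ.2 a
  · intro c
    simp only [h4, e1, e2]
    simp [qvH, TodaBC.dH, fH, lH, Fin.sum_univ_two]
    ring

end Pool.Agent.FS.TodaBC
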